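import Mathlib

/-!
# MP_1fb0bc_al: definitions (hierarchical algebras)

See `/team-store/h50_MP_1fb0bc_al.md` for the blueprint.
-/

set_option autoImplicit false

open Polynomial

namespace Pool.Agent.NilAdj

/-- the ground field -/
abbrev F := ZMod 2

/-- one step of the evolution of a linear element: `m p h a` is the coefficient (in a ring `A`) of the
level-`k` letter of type (pair `p`, half `h`), number `a`. -/
def step {A : Type*} [Ring A] [Algebra F A] {n n' : ℕ}
    (μ : Bool → Fin n → Fin n → Fin n' → F) (m : Bool → Bool → Fin n → A) :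
    Bool → Bool → Fin n' → A :=
  fun ε p c => ∑ a, ∑ b, μ ε a b c • (m p false a * m p true b)

/-- surjectivity of the pair of bilinear maps given by `μ` -/
def SurjMu {n n' : ℕ} (μ : Bool → Fin n → Fin n → Fin n' → F) : Prop :=
  ∀ z : Bool → Fin n' → F, ∃ w : Fin n → Fin n → F,
    ∀ ε c, ∑ a, ∑ b, w a b * μ ε a b c = z ε c

/-- structure constants for all levels -/
structure LevelData (d : ℕ → ℕ) where
  μ : (k : ℕ) → Bool → Fin (d k) → Fin (d k) → Fin (d (k + 1)) → F
  surj : ∀ k, SurjMu (μ k)

variable {d : ℕ → ℕ}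

/-- evolution through all levels -/
def evol (L : LevelData d) {A : Type*} [Ring A] [Algebra F A]
    (m : Bool → Bool → Fin (d 0) → A) : (k : ℕ) → (Bool → Bool → Fin (d k) → A)
  | 0 => m
  | k + 1 => step (L.μ k) (evol L m k)

/-- every linear element over the coefficient ring `A` dies after finitely many levels -/
def KillsAlg (L : LevelData d) (A : Type*) [Ring A] [Algebra F A] : Prop :=
  ∀ m : Bool → Bool → Fin (d 0) → A, ∃ k, evol L m k = 0

/-- a realisation of the level data in an algebra `B`: letters `T k p h a` of level `k`, pair `p`,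
half `h`, number `a < d k`. -/
structure Hier (L : LevelData d) (B : Type*) [Ring B] [Algebra F B] where
  T : (k : ℕ) → Bool → Bool → Fin (d k) → B
  ff : ∀ k p p' a b, T k p false a * T k p' false b = 0
  tt : ∀ k p p' a b, T k p true a * T k p' true b = 0
  ft : ∀ k p p' a b, p ≠ p' → T k p false a * T k p' true b = 0
  tf : ∀ k p a b, T k p true a * T k p false b = 0
  mul : ∀ k p a b, T k p false a * T k p true b = ∑ ε, ∑ c, L.μ k ε a b c • T (k + 1) ε p c

namespace Hier

variable {L : LevelData d} {B : Type*} [Ring B] [Algebra F B]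

/-- the set of the letters of level `0` (generators) -/
def gens (H : Hier L B) : Set B :=
  Set.range fun x : Bool × Bool × Fin (d 0) => H.T 0 x.1 x.2.1 x.2.2

/-- the non-unital algebra generated by the letters of level `0` -/
def J (H : Hier L B) : NonUnitalSubalgebra F B := NonUnitalAlgebra.adjoin F H.gens

/-- the span of the letters of level `k` and half `h` -/
def X (H : Hier L B) (k : ℕ) (h : Bool) : Submodule F B :=
  Submodule.span F (Set.range fun x : Bool × Fin (d k) => H.T k x.1 h x.2)

/-- `1` together with the letters of level `k` -/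
def U (H : Hier L B) (k : ℕ) : Submodule F B :=
  Submodule.span F (insert 1 (Set.range fun x : Bool × Bool × Fin (d k) => H.T k x.1 x.2.1 x.2.2))

/-- transport along an algebra homomorphism -/
def map (H : Hier L B) {B' : Type*} [Ring B'] [Algebra F B'] (ψ : B →ₐ[F] B') : Hier L B' where
  T k p h a := ψ (H.T k p h a)
  ff k p p' a b := by rw [← map_mul, H.ff, map_zero]
  tt k p p' a b := by rw [← map_mul, H.tt, map_zero]
  ft k p p' a b h := by rw [← map_mul, H.ft k p p' a b h, map_zero]
  tf k p a b := by rw [← map_mul, H.tf, map_zero]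
  mul k p a b := by
    rw [← map_mul, H.mul]
    simp only [map_sum, map_smul]

/-- the first halves -/
def evPart (H : Hier L B) {A : Type*} [Ring A] [Algebra F A] (φ : A →ₐ[F] B) (k : ℕ)
    (m : Bool → Bool → Fin (d k) → A) : B :=
  ∑ p, ∑ a, φ (m p false a) * H.T k p false a

/-- the second halves -/
def odPart (H : Hier L B) {A : Type*} [Ring A] [Algebra F A] (φ : A →ₐ[F] B) (k : ℕ)
    (m : Bool → Bool → Fin (d k) → A) : B :=
  ∑ p, ∑ a, φ (m p true a) * H.T k p true a

/-- the linear element with coefficients `m` at level `k` -/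
def theta (H : Hier L B) {A : Type*} [Ring A] [Algebra F A] (φ : A →ₐ[F] B) (k : ℕ)
    (m : Bool → Bool → Fin (d k) → A) : B :=
  ∑ p, ∑ h, ∑ a, φ (m p h a) * H.T k p h a

end Hier

/-- `κ` behaves like a determinant on `1 + J` -/
structure IsDet {B : Type*} [Ring B] {K : Type*} [CommGroup K] (J : Set B) (κ : B → K) : Prop where
  mul : ∀ x ∈ J, ∀ y ∈ J, κ ((1 + x) * (1 + y)) = κ (1 + x) * κ (1 + y)
  comm : ∀ x ∈ J, ∀ y ∈ J, κ (1 + x * y) = κ (1 + y * x)

/-- matrices with entries in `J` -/
def matSet {B : Type*} (J : Set B) (ι : Type*) : Set (Matrix ι ι B) := {A | ∀ i j, A i j ∈ J}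

/-- the schedule of the dimensions -/
def gExp (k : ℕ) : ℕ := (Nat.clog 2 k + k) - 2 ^ Nat.clog 2 k

/-- dimension of level `k` -/
def dd (k : ℕ) : ℕ := 2 ^ (1 + 2 ^ gExp k)

end Pool.Agent.NilAdj
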