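import Pool.Agent.Lib.MP_1fb0bc_al.Elem1

set_option autoImplicit false

open scoped commutatorElement

namespace Pool.Agent.NilAdj

variable {B : Type} [Ring B] [Algebra F B]

section diag

omit [Algebra F B] in
private theorem diag2_mul {i j : Fin 3} (x y x' y' : B) :
    diag2 i j x y * diag2 i j x' y' = diag2 i j (x * x') (y * y') := by
  unfold diag2
  rw [Matrix.diagonal_mul_diagonal]
  congr 1
  funext k
  by_cases h : k = i
  · simp [h]
  · by_cases h' : k = j
    · subst h'
      simp [h]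
    · simp [h, h']

/-- `diag` with `x` at `i`, `1` elsewhere -/
private def diag1 (i : Fin 3) (x : B) : Matrix (Fin 3) (Fin 3) B :=
  Matrix.diagonal fun k => if k = i then x else 1

omit [Algebra F B] in
private theorem diag1_mul (i : Fin 3) (x x' : B) :
    diag1 i x * diag1 i x' = diag1 i (x * x') := by
  unfold diag1
  rw [Matrix.diagonal_mul_diagonal]
  congr 1
  funext k
  by_cases h : k = i
  · simp [h]
  · simp [h]

omit [Algebra F B] in
private theorem diag1_one (i : Fin 3) : diag1 i (1 : B) = 1 := by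
  unfold diag1
  rw [← Matrix.diagonal_one]
  congr 1
  funext k
  simp

omit [Algebra F B] in
private theorem diag2_one_right {i j : Fin 3} (x : B) : diag2 i j x 1 = diag1 i x := by
  unfold diag1 diag2
  congr 1
  funext k
  simp

omit [Algebra F B] in
private theorem diag1_mul_diag1 {i j : Fin 3} (hij : i ≠ j) (x y : B) :
    diag1 i x * diag1 j y = diag2 i j x y := by
  unfold diag1 diag2
  rw [Matrix.diagonal_mul_diagonal]
  congr 1
  funext k
  by_cases h : k = i
  · subst h
    simp [hij]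
  · by_cases h' : k = j
    · subst h'
      simp [h]
    · simp [h, h']

omit [Algebra F B] in
private theorem diag1_eq (i : Fin 3) (x : B) :
    diag1 i (1 + x) = 1 + Matrix.single i i x := by
  ext k l
  unfold diag1
  by_cases hkl : k = l
  · subst hkl
    rw [Matrix.diagonal_apply_eq, Matrix.add_apply, Matrix.one_apply_eq]
    by_cases hki : k = i
    · subst hki
      rw [if_pos rfl, Matrix.single_apply_same]
    · rw [if_neg hki, Matrix.single_apply_of_ne _ _ _ _ _ (by rintro ⟨h, _⟩; exact hki h.symm),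
        add_zero]
  · rw [Matrix.diagonal_apply_ne _ hkl, Matrix.add_apply, Matrix.one_apply_ne hkl,
      Matrix.single_apply_of_ne _ _ _ _ _
        (by rintro ⟨h, h'⟩; exact hkl (h.symm.trans h')), add_zero]

end diag

/-- inverse in `1 + J` -/
private theorem exists_inv {G : Set B}
    (hnil : ∀ x ∈ NonUnitalAlgebra.adjoin F G, IsNilpotent x) {x : B}
    (hx : x ∈ NonUnitalAlgebra.adjoin F G) :
    ∃ y ∈ NonUnitalAlgebra.adjoin F G, (1 + x) * (1 + y) = 1 ∧ (1 + y) * (1 + x) = 1 := by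
  obtain ⟨u, hu⟩ := (hnil x hx).isUnit_one_add
  have h1 : (u⁻¹ : Bˣ) * (1 + x) = (1 : B) := by rw [← hu]; exact Units.inv_mul u
  obtain ⟨y, hy, hy'⟩ := inv_mem_one_add hx (hnil x hx) h1
  refine ⟨y, hy, ?_, ?_⟩
  · rw [← hy', ← hu]; exact Units.mul_inv u
  · rw [← hy', ← hu]; exact Units.inv_mul u

/-- Whitehead with `a = 1` -/
private theorem w_one {G Y : Set B} (hnil : ∀ x ∈ NonUnitalAlgebra.adjoin F G, IsNilpotent x)
    {i j : Fin 3} (hij : i < j) {x v : B} (hx : x ∈ NonUnitalAlgebra.adjoin F G)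
    (hv : v * (1 + x) = 1) (hv' : (1 + x) * v = 1) : InGam G Y (diag2 i j (1 + x) v) := by
  have h := whitehead_mem G Y i j hij 1 0 x v (zero_mem _) hx hnil
    (by rw [map_one, add_zero, mul_one]; exact hv) (by rw [map_one, add_zero, mul_one]; exact hv')
  rw [map_one, add_zero, one_mul] at h
  exact h

/-- `diag ((1 + ab)(1+ba)⁻¹)` -/
private theorem w_comm {G Y : Set B} (hnil : ∀ x ∈ NonUnitalAlgebra.adjoin F G, IsNilpotent x)
    {a b v : B} (ha : a ∈ NonUnitalAlgebra.adjoin F G) (hb : b ∈ NonUnitalAlgebra.adjoin F G)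
    (hv : v * (1 + b * a) = 1) (hv' : (1 + b * a) * v = 1) :
    InGam G Y (diag1 0 ((1 + a * b) * v)) := by
  have h1 := whitehead_mem G Y 0 1 (by decide) 0 a b v ha hb hnil
    (by rw [map_zero, zero_add]; exact hv) (by rw [map_zero, zero_add]; exact hv')
  rw [map_zero, zero_add] at h1
  have h2 : InGam G Y (diag2 0 1 (1 + b * a) v) :=
    w_one hnil (by decide) (mul_mem hb ha) hv hv'
  have h3 : InGam G Y (diag2 0 1 v (1 + b * a)) := by
    refine h2.inv ?_
    rw [diag2_mul, hv', hv]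
    rw [diag2_one_right, diag1_one]
  have h4 := h1.mul h3
  rw [diag2_mul, hv, diag2_one_right] at h4
  exact h4

/-- commutators -/
private theorem w_commutator {G Y : Set B}
    (hnil : ∀ x ∈ NonUnitalAlgebra.adjoin F G, IsNilpotent x)
    {x y x' y' : B} (hx : x ∈ NonUnitalAlgebra.adjoin F G) (hy : y ∈ NonUnitalAlgebra.adjoin F G)
    (h1 : (1 + x) * x' = 1) (h2 : x' * (1 + x) = 1) (h3 : (1 + y) * y' = 1)
    (h4 : y' * (1 + y) = 1) :
    InGam G Y (diag1 0 ((1 + x) * (1 + y) * (x' * y'))) := by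
  have a1 : InGam G Y (diag2 0 1 (1 + x) x') := w_one hnil (by decide) hx h2 h1
  have a2 : InGam G Y (diag2 0 2 (1 + y) y') := w_one hnil (by decide) hy h4 h3
  have a3 : InGam G Y (diag2 0 1 x' (1 + x)) := by
    refine a1.inv ?_
    rw [diag2_mul, h1, h2, diag2_one_right, diag1_one]
  have a4 : InGam G Y (diag2 0 2 y' (1 + y)) := by
    refine a2.inv ?_
    rw [diag2_mul, h3, h4, diag2_one_right, diag1_one]
  have h := (a1.mul a2).mul (a3.mul a4)
  have e : diag2 0 1 (1 + x) x' * diag2 0 2 (1 + y) y' *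
      (diag2 0 1 x' (1 + x) * diag2 0 2 y' (1 + y)) =
      diag1 0 ((1 + x) * (1 + y) * (x' * y')) := by
    unfold diag2 diag1
    simp only [Matrix.diagonal_mul_diagonal]
    congr 1
    funext k
    fin_cases k <;> simp [h2, h4]
  rwa [e] at h

/-- the units in `1 + J` -/
private def U1 (J : NonUnitalSubalgebra F B) : Subgroup Bˣ where
  carrier := {u | (u : B) - 1 ∈ J ∧ ((u⁻¹ : Bˣ) : B) - 1 ∈ J}
  mul_mem' := by
    rintro u v ⟨hu, hu'⟩ ⟨hv, hv'⟩
    constructor
    · have : ((u * v : Bˣ) : B) - 1 = ((u : B) - 1) * ((v : B) - 1) + ((u : B) - 1) +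
          ((v : B) - 1) := by
        rw [Units.val_mul]; noncomm_ring
      rw [this]
      exact add_mem (add_mem (mul_mem hu hv) hu) hv
    · have : (((u * v)⁻¹ : Bˣ) : B) - 1 = (((v⁻¹ : Bˣ) : B) - 1) * (((u⁻¹ : Bˣ) : B) - 1) +
          (((v⁻¹ : Bˣ) : B) - 1) + (((u⁻¹ : Bˣ) : B) - 1) := by
        rw [mul_inv_rev, Units.val_mul]; noncomm_ring
      rw [this]
      exact add_mem (add_mem (mul_mem hv' hu') hv') hu'
  one_mem' := by
    constructor
    · rw [Units.val_one, sub_self]; exact zero_mem J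
    · rw [inv_one, Units.val_one, sub_self]; exact zero_mem J
  inv_mem' := by
    rintro u ⟨hu, hu'⟩
    exact ⟨hu', by rwa [inv_inv]⟩

/-- the subgroup of the `u` with `diag (u, 1, 1) ∈ Γ` -/
private def W1 (G Y : Set B) : Subgroup (U1 (NonUnitalAlgebra.adjoin F G)) where
  carrier := {u | InGam G Y (diag1 0 ((u : Bˣ) : B))}
  mul_mem' := by
    intro u v hu hv
    have := InGam.mul hu hv
    rw [diag1_mul] at this
    exact this
  one_mem' := by
    show InGam G Y (diag1 0 (((1 : U1 (NonUnitalAlgebra.adjoin F G)) : Bˣ) : B))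
    rw [Subgroup.coe_one, Units.val_one, diag1_one]
    exact InGam.one G Y
  inv_mem' := by
    intro u hu
    refine InGam.inv hu ?_
    rw [diag1_mul, Subgroup.coe_inv, Units.mul_inv, diag1_one]

/-- `diag (1 + x, 1, 1) ∈ Γ` -/
private theorem diag_zero_mem (G Y : Set B) (hY : Y ⊆ NonUnitalAlgebra.adjoin F G)
    (hnil : ∀ x ∈ NonUnitalAlgebra.adjoin F G, IsNilpotent x)
    (hK : ∀ (K : Type) [CommGroup K] (κ : B → K),
      IsDet (NonUnitalAlgebra.adjoin F G : Set B) κ → (∀ y ∈ Y, κ (1 + y) = 1) →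
      ∀ x ∈ NonUnitalAlgebra.adjoin F G, κ (1 + x) = 1)
    {x : B} (hx : x ∈ NonUnitalAlgebra.adjoin F G) : InGam G Y (diag1 0 (1 + x)) := by
  classical
  set J := NonUnitalAlgebra.adjoin F G with hJ
  -- units
  have hun : ∀ x ∈ J, ∃ u : U1 J, ((u : Bˣ) : B) = 1 + x := by
    intro x hx
    obtain ⟨y, hy, h1, h2⟩ := exists_inv hnil hx
    refine ⟨⟨⟨1 + x, 1 + y, h1, h2⟩, ?_, ?_⟩, rfl⟩
    · show (1 + x) - 1 ∈ J
      rw [add_sub_cancel_left]; exact hx
    · show (1 + y) - 1 ∈ J
      rw [add_sub_cancel_left]; exact hy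
  let K := Abelianization (U1 J) ⧸ ((W1 G Y).map (Abelianization.of (G := U1 J)))
  let κ : B → K := fun b => if h : ∃ u : U1 J, ((u : Bˣ) : B) = b then
    QuotientGroup.mk (Abelianization.of h.choose) else 1
  have hκ : ∀ u : U1 J, κ ((u : Bˣ) : B) = QuotientGroup.mk (Abelianization.of u) := by
    intro u
    have h : ∃ u' : U1 J, ((u' : Bˣ) : B) = ((u : Bˣ) : B) := ⟨u, rfl⟩
    have h2 : h.choose = u := Subtype.ext (Units.ext h.choose_spec)
    show (if h : ∃ u' : U1 J, ((u' : Bˣ) : B) = ((u : Bˣ) : B) then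
      (QuotientGroup.mk (Abelianization.of h.choose) : K) else 1) = _
    rw [dif_pos h, h2]
  have hval : ∀ (u : U1 J), ((u : Bˣ) : B) - 1 ∈ J := fun u => u.2.1
  -- commutators lie in `W1`
  have hcom : commutator (U1 J) ≤ W1 G Y := by
    rw [commutator_def, Subgroup.commutator_le]
    intro u _ v _
    have h := w_commutator (Y := Y) hnil (hval u) (hval v) (x' := (((u : Bˣ)⁻¹ : Bˣ) : B))
      (y' := (((v : Bˣ)⁻¹ : Bˣ) : B)) (by rw [add_sub_cancel]; exact Units.mul_inv _)
      (by rw [add_sub_cancel]; exact Units.inv_mul _)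
      (by rw [add_sub_cancel]; exact Units.mul_inv _)
      (by rw [add_sub_cancel]; exact Units.inv_mul _)
    show InGam G Y (diag1 0 (((⁅u, v⁆ : U1 J) : Bˣ) : B))
    rw [add_sub_cancel, add_sub_cancel] at h
    have e : (((⁅u, v⁆ : U1 J) : Bˣ) : B) = ((u : Bˣ) : B) * ((v : Bˣ) : B) *
        ((((u : Bˣ)⁻¹ : Bˣ) : B) * (((v : Bˣ)⁻¹ : Bˣ) : B)) := by
      rw [commutatorElement_def]
      simp only [Subgroup.coe_mul, Subgroup.coe_inv, Units.val_mul, mul_assoc]
    rw [e]
    exact h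
  have hdet : IsDet (J : Set B) κ := by
    constructor
    · intro x hx y hy
      obtain ⟨u, hu⟩ := hun x hx
      obtain ⟨v, hv⟩ := hun y hy
      have e : ((((u * v : U1 J)) : Bˣ) : B) = (1 + x) * (1 + y) := by
        rw [Subgroup.coe_mul, Units.val_mul, hu, hv]
      rw [← e, ← hu, ← hv, hκ, hκ, hκ, map_mul]
      rfl
    · intro x hx y hy
      obtain ⟨u, hu⟩ := hun (x * y) (mul_mem hx hy)
      obtain ⟨v, hv⟩ := hun (y * x) (mul_mem hy hx)
      rw [← hu, ← hv, hκ, hκ, QuotientGroup.eq, mul_comm, ← map_inv, ← map_mul]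
      refine Subgroup.mem_map_of_mem _ ?_
      -- `v * u⁻¹ ∈ W1`
      have h1 : u * v⁻¹ ∈ W1 G Y := by
        show InGam G Y (diag1 0 (((u * v⁻¹ : U1 J) : Bˣ) : B))
        have h := w_comm (Y := Y) hnil hx hy (v := (((v : Bˣ)⁻¹ : Bˣ) : B))
          (by rw [← hv]; exact Units.inv_mul _) (by rw [← hv]; exact Units.mul_inv _)
        rw [← hu] at h
        exact h
      have h2 := inv_mem h1
      rwa [mul_inv_rev, inv_inv] at h2
  have hY1 : ∀ y ∈ Y, κ (1 + y) = 1 := by
    intro y hy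
    obtain ⟨u, hu⟩ := hun y (hY hy)
    rw [← hu, hκ, QuotientGroup.eq_one_iff]
    refine Subgroup.mem_map_of_mem _ ?_
    show InGam G Y (diag1 0 ((u : Bˣ) : B))
    rw [hu, diag1_eq]
    exact y_mem G Y y hy (hnil y (hY hy))
  have h1 := hK K κ hdet hY1 x hx
  obtain ⟨u, hu⟩ := hun x hx
  rw [← hu, hκ, QuotientGroup.eq_one_iff] at h1
  obtain ⟨w, hw, hwu⟩ := Subgroup.mem_map.1 h1
  have h2 : w⁻¹ * u ∈ commutator (U1 J) := by
    rw [← Abelianization.ker_of, MonoidHom.mem_ker, map_mul, map_inv, hwu, inv_mul_cancel]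
  have h3 : u ∈ W1 G Y := by
    have := mul_mem hw (hcom h2)
    rwa [mul_inv_cancel_left] at this
  have h4 : InGam G Y (diag1 0 ((u : Bˣ) : B)) := h3
  rwa [hu] at h4

/-- `diag (1 + x)` at the place `i` -/
private theorem diag_mem (G Y : Set B) (hY : Y ⊆ NonUnitalAlgebra.adjoin F G)
    (hnil : ∀ x ∈ NonUnitalAlgebra.adjoin F G, IsNilpotent x)
    (hK : ∀ (K : Type) [CommGroup K] (κ : B → K),
      IsDet (NonUnitalAlgebra.adjoin F G : Set B) κ → (∀ y ∈ Y, κ (1 + y) = 1) →
      ∀ x ∈ NonUnitalAlgebra.adjoin F G, κ (1 + x) = 1)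
    (i : Fin 3) {x : B} (hx : x ∈ NonUnitalAlgebra.adjoin F G) :
    InGam G Y (diag1 i (1 + x)) := by
  have h0 := diag_zero_mem G Y hY hnil hK hx
  by_cases hi : i = 0
  · rw [hi]; exact h0
  · obtain ⟨y, hy, h1, h2⟩ := exists_inv hnil hx
    have h3 : InGam G Y (diag2 0 i (1 + y) (1 + x)) :=
      w_one hnil (Fin.pos_iff_ne_zero.2 hi) hy h1 h2
    have h4 := h0.mul h3
    rw [← diag2_one_right (j := i), diag2_mul, h1, one_mul,
      ← diag1_mul_diag1 (Ne.symm hi), diag1_one, one_mul] at h4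
    exact h4

/-- matrices with one row -/
private theorem row_mem (G Y : Set B) (hY : Y ⊆ NonUnitalAlgebra.adjoin F G)
    (hnil : ∀ x ∈ NonUnitalAlgebra.adjoin F G, IsNilpotent x)
    (hK : ∀ (K : Type) [CommGroup K] (κ : B → K),
      IsDet (NonUnitalAlgebra.adjoin F G : Set B) κ → (∀ y ∈ Y, κ (1 + y) = 1) →
      ∀ x ∈ NonUnitalAlgebra.adjoin F G, κ (1 + x) = 1)
    (i : Fin 3) {r : Matrix (Fin 3) (Fin 3) B} (hr : r ∈ triAlg (NonUnitalAlgebra.adjoin F G))
    (h0 : ∀ k, k ≠ i → ∀ l, r k l = 0) : InGam G Y (1 + r) := by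
  obtain ⟨j, k, hj, hk, hjk, hall⟩ := (by decide : ∀ i : Fin 3, ∃ j k : Fin 3, j ≠ i ∧ k ≠ i ∧
      j ≠ k ∧ ∀ l, l = i ∨ l = j ∨ l = k) i
  have hri : r i i ∈ NonUnitalAlgebra.adjoin F G := (hr i i).1 le_rfl
  obtain ⟨y, hy, h1, h2⟩ := exists_inv hnil hri
  have hrow : ∀ l, l ≠ i → InGam G Y (1 + Matrix.single i l ((1 + y) * r i l)) := by
    intro l hl
    rcases lt_or_gt_of_ne hl with h | h
    · have h3 := (hr i l).1 h.le
      refine transv_mem G Y i l hl.symm _ ?_
      rw [add_mul, one_mul]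
      exact add_mem h3 (mul_mem hy h3)
    · obtain ⟨c, w, hw, hcw⟩ := (hr i l).2 h
      have e : (1 + y) * r i l = algebraMap F B c + (c • y + (w + y * w)) := by
        rw [hcw, Algebra.smul_def, Algebra.commutes]
        noncomm_ring
      rw [e]
      exact transv_mem_upper G Y i l h c _
        (add_mem (SMulMemClass.smul_mem c hy) (add_mem hw (mul_mem hy hw)))
  have hd := diag_mem G Y hY hnil hK i hri
  have h3 := hd.mul ((hrow j hj).mul (hrow k hk))
  have ssne : ∀ {a b c d : Fin 3}, b ≠ c → ∀ (x y : B),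
      (Matrix.single a b x * Matrix.single c d y : Matrix (Fin 3) (Fin 3) B) = 0 :=
    fun h x y => Matrix.single_mul_single_of_ne _ _ _ _ h _
  have hc : ∀ l, (1 + y) * r i l + r i i * ((1 + y) * r i l) = r i l := by
    intro l
    calc (1 + y) * r i l + r i i * ((1 + y) * r i l) = (1 + r i i) * (1 + y) * r i l := by
          noncomm_ring
      _ = r i l := by rw [h1, one_mul]
  have e : diag1 i (1 + r i i) * ((1 + Matrix.single i j ((1 + y) * r i j)) *
      (1 + Matrix.single i k ((1 + y) * r i k))) = 1 + r := by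
    rw [diag1_eq]
    have e1 : ∀ p q : B, (1 + Matrix.single i j p) * (1 + Matrix.single i k q) =
        (1 + Matrix.single i j p + Matrix.single i k q : Matrix (Fin 3) (Fin 3) B) := by
      intro p q
      rw [mul_add, mul_one, add_mul, one_mul, ssne hj]
      abel
    have e2 : r = Matrix.single i i (r i i) + Matrix.single i j (r i j) +
        Matrix.single i k (r i k) := by
      ext a b
      rw [Matrix.add_apply, Matrix.add_apply]
      by_cases ha : a = i
      · subst ha
        rcases hall b with rfl | rfl | rfl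
        · rw [Matrix.single_apply_same, Matrix.single_apply_of_ne _ _ _ _ _ (by simp [hj]),
            Matrix.single_apply_of_ne _ _ _ _ _ (by simp [hk]), add_zero, add_zero]
        · rw [Matrix.single_apply_same, Matrix.single_apply_of_ne _ _ _ _ _ (by simp [hj.symm]),
            Matrix.single_apply_of_ne _ _ _ _ _ (by simp [hjk.symm]), zero_add, add_zero]
        · rw [Matrix.single_apply_same, Matrix.single_apply_of_ne _ _ _ _ _ (by simp [hk.symm]),
            Matrix.single_apply_of_ne _ _ _ _ _ (by simp [hjk]), zero_add, zero_add]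
      · rw [h0 a ha, Matrix.single_apply_of_ne _ _ _ _ _ (by simp [Ne.symm ha]),
          Matrix.single_apply_of_ne _ _ _ _ _ (by simp [Ne.symm ha]),
          Matrix.single_apply_of_ne _ _ _ _ _ (by simp [Ne.symm ha]), add_zero, add_zero]
    rw [e1]
    conv_rhs => rw [e2]
    rw [add_mul, one_mul, mul_add, mul_add, mul_one, Matrix.single_mul_single_same,
      Matrix.single_mul_single_same]
    conv_rhs => rw [← hc j, ← hc k, Matrix.single_add, Matrix.single_add]
    abel
  rwa [e] at h3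

/-- `r` with row `i` replaced by `0` -/
private def zr (i : Fin 3) (r : Matrix (Fin 3) (Fin 3) B) : Matrix (Fin 3) (Fin 3) B :=
  Matrix.of fun a b => if a = i then 0 else r a b

private theorem zr_mem {J : NonUnitalSubalgebra F B} (i : Fin 3)
    {r : Matrix (Fin 3) (Fin 3) B} (hr : r ∈ triAlg J) : zr i r ∈ triAlg J := by
  intro a b
  unfold zr
  rw [Matrix.of_apply]
  by_cases h : a = i
  · rw [if_pos h]
    exact ⟨fun _ => zero_mem J, fun _ => ⟨0, 0, zero_mem J, by simp⟩⟩
  · rw [if_neg h]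
    exact hr a b

/-- `1 + r` lies in `Γ` (as a unit) for every `r ∈ triAlg J` -/
theorem elem_main (G Y : Set B) (hY : Y ⊆ NonUnitalAlgebra.adjoin F G)
    (hnil : ∀ (ι : Type) [Fintype ι] [DecidableEq ι] (A : Matrix ι ι B),
      A ∈ matSet (NonUnitalAlgebra.adjoin F G : Set B) ι → IsNilpotent A)
    (hK : ∀ (K : Type) [CommGroup K] (κ : B → K),
      IsDet (NonUnitalAlgebra.adjoin F G : Set B) κ → (∀ y ∈ Y, κ (1 + y) = 1) →
      ∀ x ∈ NonUnitalAlgebra.adjoin F G, κ (1 + x) = 1)
    (r : Matrix (Fin 3) (Fin 3) B) (hr : r ∈ triAlg (NonUnitalAlgebra.adjoin F G)) :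
    ∃ u ∈ Gam G Y, (u : Matrix (Fin 3) (Fin 3) B) = 1 + r := by
  have hnil1 : ∀ x ∈ NonUnitalAlgebra.adjoin F G, IsNilpotent x := by
    intro x hx
    obtain ⟨n, hn⟩ := hnil Unit (Matrix.of fun _ _ => x) (fun _ _ => hx)
    refine ⟨n, ?_⟩
    have h : ∀ n : ℕ, ((Matrix.of fun _ _ => x : Matrix Unit Unit B) ^ n) () () = x ^ n := by
      intro n
      induction n with
      | zero => simp
      | succ n ih => rw [pow_succ, Matrix.mul_apply]; simp [ih, pow_succ]
    rw [← h n, hn]
    rfl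
  have step : ∀ (i : Fin 3) (r : Matrix (Fin 3) (Fin 3) B),
      r ∈ triAlg (NonUnitalAlgebra.adjoin F G) → InGam G Y (1 + zr i r) → InGam G Y (1 + r) := by
    intro i r hr h
    have hy := zr_mem i hr
    have hx : r - zr i r ∈ triAlg (NonUnitalAlgebra.adjoin F G) := sub_mem hr hy
    have hynil : IsNilpotent (zr i r) := triAlg_nil _ (fun A hA => hnil (Fin 3) A hA) _ hy
    obtain ⟨u, hu⟩ := hynil.isUnit_one_add
    have h1 : ((u⁻¹ : (Matrix (Fin 3) (Fin 3) B)ˣ) : Matrix (Fin 3) (Fin 3) B) *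
        (1 + zr i r) = 1 := by
      rw [← hu]; exact Units.inv_mul u
    obtain ⟨y', hy', hyy⟩ := inv_mem_one_add hy hynil h1
    rw [hyy] at h1
    have h2 : InGam G Y (1 + ((r - zr i r) + (r - zr i r) * y')) := by
      refine row_mem G Y hY hnil1 hK i (add_mem hx (mul_mem hx hy')) ?_
      intro k hk l
      have h3 : ∀ l, (r - zr i r) k l = 0 := by
        intro l
        rw [Matrix.sub_apply]
        unfold zr
        rw [Matrix.of_apply, if_neg hk, sub_self]
      rw [Matrix.add_apply, h3, Matrix.mul_apply, zero_add]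
      exact Finset.sum_eq_zero fun m _ => by rw [h3, zero_mul]
    have h4 := h2.mul h
    have e : (1 + ((r - zr i r) + (r - zr i r) * y')) * (1 + zr i r) = 1 + r := by
      have : (1 + ((r - zr i r) + (r - zr i r) * y')) * (1 + zr i r) =
          1 + zr i r + (r - zr i r) * ((1 + y') * (1 + zr i r)) := by
        noncomm_ring
      rw [this, h1, mul_one]
      abel
    rwa [e] at h4
  have h3 : InGam G Y (1 + zr 0 (zr 1 (zr 2 r))) := by
    have : zr 0 (zr 1 (zr 2 r)) = 0 := by
      ext a b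
      unfold zr
      simp only [Matrix.of_apply]
      fin_cases a <;> simp
    rw [this, add_zero]
    exact InGam.one G Y
  exact step 2 r hr (step 1 _ (zr_mem 2 hr) (step 0 _ (zr_mem 1 (zr_mem 2 hr)) h3))

end Pool.Agent.NilAdj
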