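import Pool.Agent.Lib.MP_1fb0bc_al.Defs

set_option autoImplicit false

namespace Pool.Agent.NilAdj

variable {d : ℕ → ℕ} {L : LevelData d} {B : Type} [Ring B] [Algebra F B]

/-- the abstract computation in an idempotent semiring -/
private theorem growth_abs {S : Type*} [IdemSemiring S] (e o G : S)
    (hee : e * e = 0) (hoo : o * o = 0) (hGo : G * o = o) (h1G : 1 ≤ G) :
    (1 + o) * G * (1 + e) * (1 + e + o) * (1 + e + o) ≤ (1 + o) * (G * (1 + e * o)) * (1 + e) := by
  have hy : (1 + e) * (1 + e + o) * (1 + e + o)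
      = 1 + e + o + e * o + o * e + e * o * e := by
    have h1 : (1 + e) * (1 + e + o) = 1 + e + o + e * o := by
      rw [add_mul, one_mul, mul_add, mul_add, mul_one, hee, add_zero]
      have : 1 + e + o + (e + e * o) = 1 + (e + e) + o + e * o := by abel
      rw [this, add_idem]
    have h2 : (1 + e + o + e * o) * (1 + e + o)
        = 1 + (e + e) + (o + o) + o * e + (e * o + e * o) + e * o * e := by
      have e1 : e * o * o = 0 := by rw [mul_assoc, hoo, mul_zero]
      simp only [mul_add, add_mul, one_mul, mul_one, hee, hoo, e1, add_zero]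
      abel
    rw [h1, h2, add_idem, add_idem, add_idem]
    abel
  have hx : (1 + o) * G * (1 + e) * (1 + e + o) * (1 + e + o)
      = (1 + o) * (G * ((1 + e) * (1 + e + o) * (1 + e + o))) := by
    simp only [mul_assoc]
  rw [hx, hy]
  have h3 : G * (1 + e + o + e * o + o * e + e * o * e)
      = G + G * e + o + G * (e * o) + o * e + G * (e * o * e) := by
    simp only [mul_add, mul_one]
    rw [hGo, ← mul_assoc G o e, hGo]
  rw [h3]
  have h4 : (1 + o) * (G + G * e + o + G * (e * o) + o * e + G * (e * o * e))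
      = (G + G * e + G * (e * o) + G * (e * o * e) + o * G + o * (G * e) + o * (G * (e * o))
        + o * (G * (e * o * e))) + (o + o * e) := by
    have e2 : o * (o * e) = 0 := by rw [← mul_assoc, hoo, zero_mul]
    simp only [add_mul, mul_add, one_mul, hoo, e2, add_zero]
    abel
  have h5 : (1 + o) * (G * (1 + e * o)) * (1 + e)
      = G + G * e + G * (e * o) + G * (e * o * e) + o * G + o * (G * e) + o * (G * (e * o))
        + o * (G * (e * o * e)) := by
    simp only [mul_add, add_mul, one_mul, mul_one, mul_assoc]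
    abel
  rw [h4, h5]
  have l1 : o ≤ o * G := by
    calc o = o * 1 := (mul_one o).symm
      _ ≤ o * G := mul_le_mul_right h1G o
  have l2 : o * e ≤ o * (G * e) := by
    rw [← mul_assoc]
    exact mul_le_mul_left l1 e
  set R := G + G * e + G * (e * o) + G * (e * o * e) + o * (G * (e * o))
        + o * (G * (e * o * e)) with hR
  have h6 : G + G * e + G * (e * o) + G * (e * o * e) + o * G + o * (G * e) + o * (G * (e * o))
        + o * (G * (e * o * e)) = R + (o * G + o * (G * e)) := by
    rw [hR]; abel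
  rw [h6]
  calc R + (o * G + o * (G * e)) + (o + o * e)
      ≤ R + (o * G + o * (G * e)) + (o * G + o * (G * e)) :=
        add_le_add le_rfl (add_le_add l1 l2)
    _ = R + ((o * G + o * (G * e)) + (o * G + o * (G * e))) := by abel
    _ = R + (o * G + o * (G * e)) := by rw [add_idem]

/-- the induction in an idempotent semiring -/
private theorem growth_step {S : Type*} [IdemSemiring S] (e o : S) (hee : e * e = 0)
    (hoo : o * o = 0) (j : ℕ) :
    (1 + e + o) ^ (2 * j + 1) ≤ (1 + o) * (1 + e * o) ^ j * (1 + e) := by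
  have hGo : ∀ j : ℕ, (1 + e * o) ^ j * o = o := by
    intro j
    induction j with
    | zero => simp
    | succ j ih =>
      rw [pow_succ, mul_assoc, add_mul, one_mul, mul_assoc, hoo, mul_zero, add_zero, ih]
  have h1G : ∀ j : ℕ, (1 : S) ≤ (1 + e * o) ^ j := by
    intro j
    exact one_le_pow_of_one_le' (le_self_add) j
  induction j with
  | zero =>
    simp only [Nat.mul_zero, zero_add, pow_one, pow_zero, mul_one]
    rw [add_mul, one_mul, mul_add, mul_one, ← add_assoc]
    exact le_self_add
  | succ j ih =>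
    rw [show 2 * (j + 1) + 1 = (2 * j + 1) + 1 + 1 by ring, pow_succ, pow_succ]
    refine (mul_le_mul' (mul_le_mul' ih le_rfl) le_rfl).trans ?_
    rw [pow_succ (1 + e * o) j]
    exact growth_abs e o ((1 + e * o) ^ j) hee hoo (hGo j) (h1G j)

private theorem growth_U_eq (H : Hier L B) (k : ℕ) :
    H.U k = 1 + H.X k false + H.X k true := by
  apply le_antisymm
  · rw [Hier.U, Submodule.span_le]
    rintro x (rfl | ⟨⟨p, h, a⟩, rfl⟩)
    · simp only [Submodule.add_eq_sup]
      exact Submodule.mem_sup_left (Submodule.mem_sup_left (Submodule.one_le.mp le_rfl))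
    · simp only [Submodule.add_eq_sup]
      cases h
      · exact Submodule.mem_sup_left (Submodule.mem_sup_right
          (Submodule.subset_span ⟨(p, a), rfl⟩))
      · exact Submodule.mem_sup_right (Submodule.subset_span ⟨(p, a), rfl⟩)
  · simp only [Submodule.add_eq_sup]
    refine sup_le (sup_le ?_ ?_) ?_
    · rw [Submodule.one_le]
      exact Submodule.subset_span (Set.mem_insert _ _)
    · rw [Hier.X, Submodule.span_le]
      rintro _ ⟨⟨p, a⟩, rfl⟩
      exact Submodule.subset_span (Set.mem_insert_of_mem _ ⟨(p, false, a), rfl⟩)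
    · rw [Hier.X, Submodule.span_le]
      rintro _ ⟨⟨p, a⟩, rfl⟩
      exact Submodule.subset_span (Set.mem_insert_of_mem _ ⟨(p, true, a), rfl⟩)

private theorem growth_ee (H : Hier L B) (k : ℕ) : H.X k false * H.X k false = 0 := by
  rw [Hier.X, Submodule.span_mul_span, Submodule.zero_eq_bot, Submodule.span_eq_bot]
  rintro _ ⟨_, ⟨⟨p, a⟩, rfl⟩, _, ⟨⟨p', b⟩, rfl⟩, rfl⟩
  exact H.ff k p p' a b

private theorem growth_oo (H : Hier L B) (k : ℕ) : H.X k true * H.X k true = 0 := by
  rw [Hier.X, Submodule.span_mul_span, Submodule.zero_eq_bot, Submodule.span_eq_bot]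
  rintro _ ⟨_, ⟨⟨p, a⟩, rfl⟩, _, ⟨⟨p', b⟩, rfl⟩, rfl⟩
  exact H.tt k p p' a b

private theorem growth_one_le (H : Hier L B) (k : ℕ) : (1 : Submodule F B) ≤ H.U k := by
  rw [Submodule.one_le]
  exact Submodule.subset_span (Set.mem_insert _ _)

private theorem growth_eo (H : Hier L B) (k : ℕ) :
    1 + H.X k false * H.X k true ≤ H.U (k + 1) := by
  rw [Submodule.add_eq_sup]
  refine sup_le (growth_one_le H (k + 1)) ?_
  rw [Hier.X, Hier.X, Submodule.span_mul_span, Submodule.span_le]
  rintro _ ⟨_, ⟨⟨p, a⟩, rfl⟩, _, ⟨⟨p', b⟩, rfl⟩, rfl⟩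
  change H.T k p false a * H.T k p' true b ∈ H.U (k + 1)
  by_cases hpp : p = p'
  · subst hpp
    rw [H.mul k p a b]
    refine Submodule.sum_mem _ fun ε _ => Submodule.sum_mem _ fun c _ => ?_
    refine Submodule.smul_mem _ _ ?_
    exact Submodule.subset_span (Set.mem_insert_of_mem _ ⟨(ε, p, c), rfl⟩)
  · rw [H.ft k p p' a b hpp]
    exact Submodule.zero_mem _

theorem U_pow_le (H : Hier L B) (k n : ℕ) :
    H.U k ^ n ≤ H.U k * H.U (k + 1) ^ (n / 2) * H.U k := by
  have h1 : H.U k ^ n ≤ H.U k ^ (2 * (n / 2) + 1) := by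
    obtain ⟨r, hr⟩ : ∃ r, 2 * (n / 2) + 1 = n + r := ⟨2 * (n / 2) + 1 - n, by omega⟩
    rw [hr, pow_add]
    calc H.U k ^ n = H.U k ^ n * 1 := (mul_one _).symm
      _ ≤ H.U k ^ n * H.U k ^ r := mul_le_mul' le_rfl (one_le_pow_of_one_le' (growth_one_le H k) r)
  refine h1.trans ?_
  have h2 := growth_step (H.X k false) (H.X k true) (growth_ee H k) (growth_oo H k) (n / 2)
  rw [← growth_U_eq] at h2
  refine h2.trans ?_
  refine mul_le_mul' (mul_le_mul' ?_ ?_) ?_
  · rw [growth_U_eq]
    simp only [Submodule.add_eq_sup]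
    exact sup_le (le_sup_left.trans le_sup_left) le_sup_right
  · exact pow_le_pow_left' (growth_eo H k) _
  · rw [growth_U_eq]
    simp only [Submodule.add_eq_sup]
    exact le_sup_left

private theorem growth_mul_fin (M N : Submodule F B) [Module.Finite F M] [Module.Finite F N] :
    Module.Finite F ↥(M * N) ∧
      Module.finrank F ↥(M * N) ≤ Module.finrank F M * Module.finrank F N := by
  have h := Submodule.mulMap_range M N
  rw [← h]
  refine ⟨inferInstance, ?_⟩
  refine (LinearMap.finrank_range_le _).trans ?_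
  rw [Module.finrank_tensorProduct]

private theorem growth_U_fin (H : Hier L B) (k : ℕ) :
    Module.Finite F (H.U k) ∧ Module.finrank F (H.U k) ≤ 1 + 4 * d k := by
  classical
  have hS : (insert 1 (Set.range fun x : Bool × Bool × Fin (d k) => H.T k x.1 x.2.1 x.2.2))
      = ((insert 1 (Finset.univ.image fun x : Bool × Bool × Fin (d k) => H.T k x.1 x.2.1 x.2.2) :
        Finset B) : Set B) := by
    simp
  rw [Hier.U, hS]
  refine ⟨inferInstance, ?_⟩
  refine (finrank_span_finset_le_card _).trans ?_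
  refine (Finset.card_insert_le _ _).trans ?_
  have h1 := Finset.card_image_le (s := (Finset.univ : Finset (Bool × Bool × Fin (d k))))
    (f := fun x => H.T k x.1 x.2.1 x.2.2)
  have h2 : (Finset.univ : Finset (Bool × Bool × Fin (d k))).card = 4 * d k := by
    simp only [Finset.card_univ, Fintype.card_prod, Fintype.card_bool, Fintype.card_fin]
    ring
  omega

private theorem growth_gen (H : Hier L B) (K : ℕ) : ∀ k n : ℕ, n < 2 ^ K →
    Module.Finite F ↥(H.U k ^ n) ∧
      Module.finrank F ↥(H.U k ^ n) ≤ ∏ m ∈ Finset.range K, (1 + 4 * d (k + m)) ^ 2 := by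
  induction K with
  | zero =>
    intro k n hn
    have h0 : n = 0 := by simpa using hn
    subst h0
    rw [pow_zero, Finset.range_zero, Finset.prod_empty]
    have h1 : (1 : Submodule F B) = Submodule.span F (({1} : Finset B) : Set B) := by
      rw [Finset.coe_singleton]
      exact Submodule.one_eq_span
    rw [h1]
    exact ⟨inferInstance, (finrank_span_finset_le_card _).trans (by simp)⟩
  | succ K ih =>
    intro k n hn
    have hn2 : n / 2 < 2 ^ K := by
      rw [pow_succ] at hn
      omega
    obtain ⟨f1, r1⟩ := ih (k + 1) (n / 2) hn2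
    obtain ⟨f0, r0⟩ := growth_U_fin H k
    obtain ⟨f2, r2⟩ := growth_mul_fin (H.U k) (H.U (k + 1) ^ (n / 2))
    obtain ⟨f3, r3⟩ := growth_mul_fin (H.U k * H.U (k + 1) ^ (n / 2)) (H.U k)
    have hle := U_pow_le H k n
    refine ⟨Module.Finite.of_injective _ (Submodule.inclusion_injective hle), ?_⟩
    refine (Submodule.finrank_mono hle).trans (r3.trans ?_)
    rw [Finset.prod_range_succ']
    have hprod : ∏ m ∈ Finset.range K, (1 + 4 * d (k + (m + 1))) ^ 2
        = ∏ m ∈ Finset.range K, (1 + 4 * d (k + 1 + m)) ^ 2 := by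
      refine Finset.prod_congr rfl fun m _ => ?_
      rw [show k + (m + 1) = k + 1 + m by ring]
    rw [hprod, add_zero]
    calc Module.finrank F ↥(H.U k * H.U (k + 1) ^ (n / 2)) * Module.finrank F ↥(H.U k)
        ≤ ((1 + 4 * d k) * ∏ m ∈ Finset.range K, (1 + 4 * d (k + 1 + m)) ^ 2) * (1 + 4 * d k) :=
          Nat.mul_le_mul (r2.trans (Nat.mul_le_mul r0 r1)) r0
      _ = (∏ m ∈ Finset.range K, (1 + 4 * d (k + 1 + m)) ^ 2) * (1 + 4 * d k) ^ 2 := by ring

theorem finrank_U_pow (H : Hier L B) (K n : ℕ) (h : n < 2 ^ K) :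
    Module.Finite F ↥(H.U 0 ^ n) ∧
      Module.finrank F ↥(H.U 0 ^ n) ≤ ∏ m ∈ Finset.range K, (1 + 4 * d m) ^ 2 := by
  have := growth_gen H K 0 n h
  simpa using this

end Pool.Agent.NilAdj
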