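import Pool.Agent.Lib.MP_1fb0bc_al.Evol
import Pool.Agent.Lib.MP_1fb0bc_al.Lin

set_option autoImplicit false

open Polynomial

namespace Pool.Agent.NilAdj

/-- polynomials whose coefficients are linear combinations of the letters of level `0` -/
private def linPoly {d : ℕ → ℕ} {L : LevelData d} {B : Type} [Ring B] [Algebra F B]
    (H : Hier L B) : Submodule F B[X] where
  carrier := {q | ∀ n, q.coeff n ∈ Submodule.span F
    (Set.range fun x : Bool × Bool × Fin (d 0) => H.T 0 x.1 x.2.1 x.2.2)}
  zero_mem' n := by rw [coeff_zero]; exact Submodule.zero_mem _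
  add_mem' {p q} hp hq n := by rw [coeff_add]; exact Submodule.add_mem _ (hp n) (hq n)
  smul_mem' c q hq n := by rw [coeff_smul]; exact Submodule.smul_mem _ c (hq n)

private lemma mem_linPoly {d : ℕ → ℕ} {L : LevelData d} {B : Type} [Ring B] [Algebra F B]
    (H : Hier L B) {q : B[X]} : q ∈ linPoly H ↔ ∀ n, q.coeff n ∈ Submodule.span F
      (Set.range fun x : Bool × Bool × Fin (d 0) => H.T 0 x.1 x.2.1 x.2.2) := Iff.rfl

private lemma linPoly_rep {d : ℕ → ℕ} {L : LevelData d} {B : Type} [Ring B] [Algebra F B]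
    (H : Hier L B) {q : B[X]} (hq : q ∈ linPoly H) :
    ∃ r : Bool → Bool → Fin (d 0) → F[X],
      q = ∑ p, ∑ h, ∑ a, mapAlgHom (Algebra.ofId F B) (r p h a) * C (H.T 0 p h a) := by
  have h1 : ∀ n, ∃ c : Bool × Bool × Fin (d 0) → F,
      ∑ x, c x • H.T 0 x.1 x.2.1 x.2.2 = q.coeff n := fun n =>
    (Submodule.mem_span_range_iff_exists_fun F).1 (hq n)
  choose c hc using h1
  refine ⟨fun p h a => ∑ n ∈ q.support, monomial n (c n (p, h, a)), ?_⟩
  ext n
  have hcoef : ∀ (p h : Bool) (a : Fin (d 0)),
      (mapAlgHom (Algebra.ofId F B) (∑ n ∈ q.support, monomial n (c n (p, h, a))) *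
        C (H.T 0 p h a)).coeff n = if n ∈ q.support then c n (p, h, a) • H.T 0 p h a else 0 := by
    intro p h a
    rw [coeff_mul_C, coe_mapAlgHom, coeff_map, finset_sum_coeff]
    simp only [coeff_monomial, Finset.sum_ite_eq', mem_support_iff, ne_eq]
    split_ifs with h1
    · rw [Algebra.smul_def]
      rfl
    · rw [map_zero, zero_mul]
  simp only [finset_sum_coeff, hcoef]
  by_cases hn : n ∈ q.support
  · simp only [hn, if_true]
    rw [← hc n, Fintype.sum_prod_type]
    refine Finset.sum_congr rfl fun p _ => ?_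
    rw [Fintype.sum_prod_type]
  · simp only [hn, if_false, Finset.sum_const_zero]
    exact notMem_support_iff.1 hn

private lemma map_comm_C {B : Type} [Ring B] [Algebra F B] (q : F[X]) (b : B) :
    mapAlgHom (Algebra.ofId F B) q * C b = C b * mapAlgHom (Algebra.ofId F B) q := by
  ext n
  rw [coeff_mul_C, coeff_C_mul, coe_mapAlgHom, coeff_map]
  exact Algebra.commutes _ _

private lemma lin_nilpotent {d : ℕ → ℕ} {L : LevelData d} {B : Type} [Ring B] [Algebra F B]
    (H : Hier L B) (hk : ∀ N : ℕ, KillsAlg L (Matrix (Fin N) (Fin N) F[X])) (ι : Type) [Fintype ι]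
    [DecidableEq ι] (M : Matrix ι ι B[X]) (hM : ∀ i j, M i j ∈ linPoly H) : IsNilpotent M := by
  choose r hr using fun i j => linPoly_rep H (hM i j)
  let ψ : B →ₐ[F] Matrix ι ι B[X] := (Matrix.scalarAlgHom ι F).comp (CAlgHom (R := F) (A := B))
  let H' : Hier L (Matrix ι ι B[X]) := H.map ψ
  let φ : Matrix ι ι F[X] →ₐ[F] Matrix ι ι B[X] :=
    AlgHom.mapMatrix (mapAlgHom (Algebra.ofId F B))
  have hT : ∀ k p h a, H'.T k p h a = Matrix.diagonal fun _ => C (H.T k p h a) := fun _ _ _ _ => rfl
  have hφ : ∀ (x : Matrix ι ι F[X]) i j, φ x i j = mapAlgHom (Algebra.ofId F B) (x i j) :=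
    fun _ _ _ => rfl
  have hc : ∀ x k p h a, Commute (φ x) (H'.T k p h a) := by
    intro x k p h a
    rw [commute_iff_eq, hT]
    ext1 i j
    rw [Matrix.mul_diagonal, Matrix.diagonal_mul, hφ]
    exact map_comm_C _ _
  let m : Bool → Bool → Fin (d 0) → Matrix ι ι F[X] := fun p h a => Matrix.of fun i j => r i j p h a
  obtain ⟨k, hk0⟩ := kills_matrix_poly hk ι m
  have h1 := theta_nilpotent H' φ hc m k hk0
  have h2 : H'.theta φ 0 m = M := by
    ext1 i j
    rw [Hier.theta]
    simp only [Matrix.sum_apply]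
    rw [hr i j]
    refine Finset.sum_congr rfl fun p _ => Finset.sum_congr rfl fun h _ =>
      Finset.sum_congr rfl fun a _ => ?_
    rw [hT, Matrix.mul_diagonal, hφ]
    rfl
  rwa [h2] at h1

/-- all matrices over `J` are nilpotent -/
theorem nil_matrix {d : ℕ → ℕ} {L : LevelData d} {B : Type} [Ring B] [Algebra F B] (H : Hier L B)
    (hk : ∀ N : ℕ, KillsAlg L (Matrix (Fin N) (Fin N) F[X])) (ι : Type) [Fintype ι]
    [DecidableEq ι] (A : Matrix ι ι B) (hA : ∀ i j, A i j ∈ H.J) : IsNilpotent A := by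
  classical
  -- elements `X ^ n * C a`
  have hmem : ∀ a ∈ H.J, ∀ n : ℕ,
      (X ^ n * C a : B[X]) ∈ NonUnitalAlgebra.adjoin F (linPoly H : Set B[X]) := by
    intro a ha
    induction ha using NonUnitalAlgebra.adjoin_induction with
    | mem x hx =>
      intro n
      apply NonUnitalAlgebra.subset_adjoin
      intro k
      rw [coeff_X_pow_mul', coeff_C]
      split_ifs
      · exact Submodule.subset_span hx
      · exact Submodule.zero_mem _
      · exact Submodule.zero_mem _
    | add x y _ _ hx hy =>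
      intro n
      rw [C_add, mul_add]
      exact add_mem (hx n) (hy n)
    | zero =>
      intro n
      rw [C_0, mul_zero]
      exact zero_mem _
    | mul x y _ _ hx hy =>
      intro n
      have h0 := mul_mem (hx n) (hy 0)
      rwa [pow_zero, one_mul, mul_assoc, ← C_mul] at h0
    | smul r x _ hx =>
      intro n
      have h0 : (X ^ n * C (r • x) : B[X]) = r • (X ^ n * C x) := by
        rw [← smul_C, mul_smul_comm]
      rw [h0]
      exact SMulMemClass.smul_mem r (hx n)
  obtain ⟨q, hq⟩ := lin_induction (linPoly H)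
    (fun (ι : Type) [Fintype ι] [DecidableEq ι] (P : Matrix ι ι B[X]) =>
      ∃ q : Matrix ι ι B[X], (1 - P) * q = 1)
    (fun ι _ _ M hM => (lin_nilpotent H hk ι M hM).isUnit_one_sub.exists_right_inv)
    (fun ι _ _ A D Q _ _ _ => by
      rintro ⟨q, hq⟩
      refine ⟨q.toBlocks₂₂, ?_⟩
      rw [← Matrix.fromBlocks_toBlocks q, ← Matrix.fromBlocks_one, sub_eq_add_neg,
        Matrix.fromBlocks_neg, Matrix.fromBlocks_add, Matrix.fromBlocks_multiply,
        Matrix.fromBlocks_inj] at hq
      obtain ⟨-, h12, -, h22⟩ := hq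
      simp only [neg_zero, add_zero, zero_add, one_mul, neg_mul] at h12 h22
      have h1 : q.toBlocks₁₂ = D * q.toBlocks₂₂ := by
        rw [← sub_eq_add_neg] at h12
        exact sub_eq_zero.1 h12
      rw [h1] at h22
      refine Eq.trans ?_ h22
      noncomm_ring)
    ι (Matrix.of fun i j => X * C (A i j)) (fun i j => by
      have h0 := hmem _ (hA i j) 1
      rwa [pow_one] at h0)
  -- coefficients of the inverse
  let cf : ℕ → Matrix ι ι B := fun n => Matrix.of fun i j => (q i j).coeff n
  have hentry : ∀ i j, q i j - ∑ k, X * (C (A i k) * q k j) = (1 : Matrix ι ι B[X]) i j := by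
    intro i j
    have h0 := congrFun (congrFun hq i) j
    rw [sub_mul, one_mul, Matrix.sub_apply, Matrix.mul_apply] at h0
    simp only [Matrix.of_apply, mul_assoc] at h0
    exact h0
  have hc0 : cf 0 = 1 := by
    ext i j
    have h0 := congrArg (fun p : B[X] => p.coeff 0) (hentry i j)
    simp only [coeff_sub, finset_sum_coeff, mul_coeff_zero, coeff_X_zero, zero_mul,
      Finset.sum_const_zero, sub_zero] at h0
    change (q i j).coeff 0 = _
    rw [h0, Matrix.one_apply, Matrix.one_apply]
    split_ifs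
    · exact coeff_one_zero
    · exact coeff_zero 0
  have hcs : ∀ n, cf (n + 1) = A * cf n := by
    intro n
    ext i j
    have h0 := congrArg (fun p : B[X] => p.coeff (n + 1)) (hentry i j)
    simp only [coeff_sub, finset_sum_coeff, coeff_X_mul, coeff_C_mul] at h0
    have h1 : ((1 : Matrix ι ι B[X]) i j).coeff (n + 1) = 0 := by
      rw [Matrix.one_apply]
      split_ifs
      · rw [coeff_one, if_neg (Nat.succ_ne_zero n)]
      · exact coeff_zero _
    rw [h1] at h0
    rw [Matrix.mul_apply]
    exact sub_eq_zero.1 h0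
  have hpow : ∀ n, cf n = A ^ n := by
    intro n
    induction n with
    | zero => rw [hc0, pow_zero]
    | succ n ih => rw [hcs, ih, ← pow_succ']
  refine ⟨(∑ i, ∑ j, (q i j).natDegree) + 1, ?_⟩
  rw [← hpow]
  ext i j
  change (q i j).coeff _ = 0
  apply coeff_eq_zero_of_natDegree_lt
  have h1 : (q i j).natDegree ≤ ∑ j, (q i j).natDegree :=
    Finset.single_le_sum (f := fun j => (q i j).natDegree) (fun _ _ => Nat.zero_le _)
      (Finset.mem_univ j)
  have h2 : ∑ j, (q i j).natDegree ≤ ∑ i, ∑ j, (q i j).natDegree :=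
    Finset.single_le_sum (f := fun i => ∑ j, (q i j).natDegree) (fun _ _ => Nat.zero_le _)
      (Finset.mem_univ i)
  omega

end Pool.Agent.NilAdj
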