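import Pool.Agent.Lib.MP_1fb0bc_al.Defs

set_option autoImplicit false

open Polynomial

namespace Pool.Agent.NilAdj

private theorem mat_mul_natDegree_le {N Δ : ℕ} (A B : Matrix (Fin N) (Fin N) F[X])
    (hA : ∀ i j, (A i j).natDegree ≤ Δ) (hB : ∀ i j, (B i j).natDegree ≤ Δ) (i j : Fin N) :
    ((A * B) i j).natDegree ≤ 2 * Δ := by
  rw [Matrix.mul_apply]
  refine Polynomial.natDegree_sum_le_of_forall_le _ _ fun k _ => ?_
  refine (Polynomial.natDegree_mul_le).trans ?_
  have := hA i k
  have := hB k j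
  omega

/-- linear algebra: a surjection `D ⊗ D → D' × D'` which kills the coefficient vectors of
`m p false ⬝ m p true` (`p : Bool`), when there are few of them. -/
theorem exists_mu {n n' N Δ : ℕ} (m : Bool → Bool → Fin n → Matrix (Fin N) (Fin N) F[X])
    (hdeg : ∀ p h a i j, (m p h a i j).natDegree ≤ Δ)
    (hfit : 2 * N ^ 2 * (2 * Δ + 1) + 2 * n' ≤ n ^ 2) :
    ∃ μ : Bool → Fin n → Fin n → Fin n' → F, SurjMu μ ∧ step μ m = 0 := by
  classical
  have : Fact (Nat.Prime 2) := ⟨Nat.prime_two⟩
  let v : Bool × Fin N × Fin N × Fin (2 * Δ + 1) → (Fin n × Fin n → F) := fun x ab =>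
    ((m x.1 false ab.1 * m x.1 true ab.2) x.2.1 x.2.2.1).coeff x.2.2.2
  let S : Submodule F (Fin n × Fin n → F) := Submodule.span F (Set.range v)
  have hS : Module.finrank F S ≤ 2 * N ^ 2 * (2 * Δ + 1) := by
    refine (finrank_range_le_card v).trans (le_of_eq ?_)
    simp [Fintype.card_prod]
    ring
  have hQ : 2 * n' ≤ Module.finrank F ((Fin n × Fin n → F) ⧸ S) := by
    have h1 := Submodule.finrank_quotient_add_finrank S
    have h2 : Module.finrank F (Fin n × Fin n → F) = n ^ 2 := by
      rw [Module.finrank_fintype_fun_eq_card]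
      simp [Fintype.card_prod]
      ring
    omega
  obtain ⟨f, hf⟩ := exists_linearIndependent_of_le_finrank hQ
  let e : Bool × Fin n' ≃ Fin (2 * n') := Fintype.equivFinOfCardEq (by simp [Fintype.card_prod])
  have hf' : LinearIndependent F (f ∘ e) := hf.comp _ e.injective
  let φ : (Bool × Fin n' → F) →ₗ[F] ((Fin n × Fin n → F) ⧸ S) := Fintype.linearCombination F (f ∘ e)
  have hφ : Function.Injective φ := hf'.fintypeLinearCombination_injective
  obtain ⟨g, hg⟩ := φ.exists_leftInverse_of_injective (LinearMap.ker_eq_bot.2 hφ)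
  refine ⟨fun ε a b c => g (S.mkQ (Pi.single (a, b) 1)) (ε, c), ?_, ?_⟩
  · intro z
    obtain ⟨w, hw⟩ := S.mkQ_surjective (φ fun x => z x.1 x.2)
    refine ⟨fun a b => w (a, b), fun ε c => ?_⟩
    have h1 : g (S.mkQ w) = fun x => z x.1 x.2 := by
      rw [hw]
      exact congrArg (fun h => h fun x : Bool × Fin n' => z x.1 x.2) hg
    have h2 : w = ∑ ab : Fin n × Fin n, w ab • (Pi.single ab (1 : F) : Fin n × Fin n → F) := by
      exact pi_eq_sum_univ' w |>.trans (by simp)
    have h3 := congrFun h1 (ε, c)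
    rw [h2] at h3
    simp only [map_sum, map_smul, Finset.sum_apply, Pi.smul_apply, smul_eq_mul] at h3
    rw [← h3, Fintype.sum_prod_type]
  · funext ε p c
    ext i j s
    simp only [step, Pi.zero_apply, Matrix.zero_apply, Polynomial.coeff_zero]
    simp only [Matrix.sum_apply, Matrix.smul_apply, Polynomial.finsetSum_coeff,
      Polynomial.coeff_smul, smul_eq_mul]
    by_cases hs : s < 2 * Δ + 1
    · have hv : v (p, i, j, ⟨s, hs⟩) ∈ S := Submodule.subset_span ⟨_, rfl⟩
      have h0 : g (S.mkQ (v (p, i, j, ⟨s, hs⟩))) (ε, c) = 0 := by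
        have : S.mkQ (v (p, i, j, ⟨s, hs⟩)) = 0 := by
          rw [Submodule.mkQ_apply]
          exact (Submodule.Quotient.mk_eq_zero S).2 hv
        rw [this, map_zero]; rfl
      have h2 : v (p, i, j, ⟨s, hs⟩) = ∑ ab : Fin n × Fin n, v (p, i, j, ⟨s, hs⟩) ab •
          (Pi.single ab (1 : F) : Fin n × Fin n → F) := by
        exact pi_eq_sum_univ' _ |>.trans (by simp)
      rw [h2] at h0
      simp only [map_sum, map_smul, Finset.sum_apply, Pi.smul_apply, smul_eq_mul] at h0
      rw [← h0, Fintype.sum_prod_type]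
      refine Finset.sum_congr rfl fun a _ => Finset.sum_congr rfl fun b _ => ?_
      rw [mul_comm]
    · refine Finset.sum_eq_zero fun a _ => Finset.sum_eq_zero fun b _ => ?_
      rw [Polynomial.coeff_eq_zero_of_natDegree_lt, mul_zero]
      have := mat_mul_natDegree_le (m p false a) (m p true b) (hdeg p false a) (hdeg p true b) i j
      omega

end Pool.Agent.NilAdj
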