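import Pool.Agent.Lib.MP_1fb0bc_al.Elem1

set_option autoImplicit false

open Polynomial

namespace Pool.Agent.NilAdj

section aux

variable {B : Type} [Ring B] [Algebra F B]

/-- matrices with entries in a submodule -/
private def matSub (P : Submodule F B) : Submodule F (Matrix (Fin 3) (Fin 3) B) where
  carrier := {A | ∀ i j, A i j ∈ P}
  zero_mem' := fun _ _ => P.zero_mem
  add_mem' := fun hA hA' i j => P.add_mem (hA i j) (hA' i j)
  smul_mem' := fun c _ hA i j => P.smul_mem c (hA i j)

private lemma mem_matSub {P : Submodule F B} {A : Matrix (Fin 3) (Fin 3) B} :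
    A ∈ matSub P ↔ ∀ i j, A i j ∈ P := Iff.rfl

private lemma matSub_mul (P Q : Submodule F B) : matSub P * matSub Q ≤ matSub (P * Q) := by
  rw [Submodule.mul_le]
  intro A hA A' hA' i j
  rw [Matrix.mul_apply]
  exact Submodule.sum_mem _ fun k _ => Submodule.mul_mem_mul (hA i k) (hA' k j)

private lemma one_le_matSub : (1 : Submodule F (Matrix (Fin 3) (Fin 3) B)) ≤ matSub 1 := by
  rw [Submodule.one_le]
  intro i j
  by_cases h : i = j
  · subst h
    rw [Matrix.one_apply_eq]
    exact Submodule.one_le.1 le_rfl
  · rw [Matrix.one_apply_ne h]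
    exact Submodule.zero_mem _

private lemma pow_le_matSub {V : Submodule F (Matrix (Fin 3) (Fin 3) B)} {W : Submodule F B}
    (h : V ≤ matSub W) (n : ℕ) : V ^ n ≤ matSub (W ^ n) := by
  induction n with
  | zero =>
    rw [pow_zero, pow_zero]
    exact one_le_matSub
  | succ n ih =>
    rw [pow_succ, pow_succ]
    exact (mul_le_mul' ih h).trans (matSub_mul _ _)

private noncomputable def matSubEquiv (P : Submodule F B) :
    matSub P ≃ₗ[F] (Fin 3 → Fin 3 → P) where
  toFun A := fun i j => ⟨A.1 i j, A.2 i j⟩
  map_add' _ _ := rfl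
  map_smul' _ _ := rfl
  invFun f := ⟨fun i j => (f i j : B), fun i j => (f i j).2⟩
  left_inv _ := rfl
  right_inv _ := rfl

private lemma finite_matSub (P : Submodule F B) [Module.Finite F P] :
    Module.Finite F (matSub P) := Module.Finite.equiv (matSubEquiv P).symm

private lemma finrank_matSub (P : Submodule F B) [Module.Finite F P] :
    Module.finrank F (matSub P) = 9 * Module.finrank F P := by
  rw [LinearEquiv.finrank_eq (matSubEquiv P), Module.finrank_pi_fintype]
  simp only [Module.finrank_pi_fintype, Finset.sum_const, Finset.card_univ, Fintype.card_fin,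
    smul_eq_mul]
  ring

private lemma mem_triAlg {J : NonUnitalSubalgebra F B} {A : Matrix (Fin 3) (Fin 3) B} :
    A ∈ triAlg J ↔ ∀ i j, (j ≤ i → A i j ∈ J) ∧
      (i < j → ∃ c : F, ∃ x ∈ J, A i j = algebraMap F B c + x) := Iff.rfl

private lemma single_mem_triAlg {J : NonUnitalSubalgebra F B} (i j : Fin 3) {g : B}
    (hg : g ∈ J) : Matrix.single i j g ∈ triAlg J := by
  rw [mem_triAlg]
  intro k l
  have h : Matrix.single i j g k l ∈ J := by
    rw [Matrix.single_apply]
    split_ifs
    · exact hg
    · exact J.zero_mem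
  exact ⟨fun _ => h, fun _ => ⟨0, _, h, by rw [map_zero, zero_add]⟩⟩

private lemma single_one_mem_triAlg {J : NonUnitalSubalgebra F B} {i j : Fin 3} (hij : i < j) :
    Matrix.single i j (1 : B) ∈ triAlg J := by
  rw [mem_triAlg]
  intro k l
  rw [Matrix.single_apply]
  constructor
  · intro hlk
    rw [if_neg]
    · exact J.zero_mem
    · rintro ⟨rfl, rfl⟩
      exact absurd hij (not_lt.2 hlk)
  · intro _
    split_ifs
    · exact ⟨1, 0, J.zero_mem, by rw [map_one, add_zero]⟩
    · exact ⟨0, 0, J.zero_mem, by rw [map_zero, add_zero]⟩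

private lemma elemGens_subset {J : NonUnitalSubalgebra F B} {G Y : Set B} (hG : G ⊆ J)
    (hY : Y ⊆ J) : elemGens G Y ⊆ triAlg J := by
  rintro A ((⟨i, j, hij, rfl⟩ | ⟨i, j, -, g, hg, rfl⟩) | ⟨y, hy, rfl⟩)
  · exact single_one_mem_triAlg hij
  · exact single_mem_triAlg i j (hG hg)
  · exact single_mem_triAlg 0 0 (hY hy)

private lemma elemGens_finite {G Y : Set B} (hG : G.Finite) (hY : Y.Finite) :
    (elemGens G Y).Finite := by
  refine (Set.Finite.union ?_ ?_).union ?_
  · refine (Set.finite_range fun x : Fin 3 × Fin 3 => Matrix.single x.1 x.2 (1 : B)).subset ?_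
    rintro A ⟨i, j, -, rfl⟩
    exact ⟨(i, j), rfl⟩
  · refine (((Set.finite_univ (α := Fin 3 × Fin 3)).prod hG).image
      fun x : (Fin 3 × Fin 3) × B => Matrix.single x.1.1 x.1.2 x.2).subset ?_
    rintro A ⟨i, j, -, g, hg, rfl⟩
    exact ⟨((i, j), g), ⟨Set.mem_univ _, hg⟩, rfl⟩
  · refine (hY.image fun y : B => Matrix.single 0 0 y).subset ?_
    rintro A ⟨y, hy, rfl⟩
    exact ⟨y, hy, rfl⟩

private lemma triGens_subset {J : NonUnitalSubalgebra F B} {G : Set B} (hG : G ⊆ J) :
    triGens G ⊆ triAlg J := by
  rintro A (⟨i, j, hij, rfl⟩ | ⟨i, j, g, hg, rfl⟩)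
  · exact single_one_mem_triAlg hij
  · exact single_mem_triAlg i j (hG hg)

private lemma triGens_matSub (G : Set B) :
    triGens G ⊆ matSub (Submodule.span F (insert 1 G)) := by
  rintro A (⟨i, j, hij, rfl⟩ | ⟨i, j, g, hg, rfl⟩) k l
  · rw [Matrix.single_apply]
    split_ifs
    · exact Submodule.subset_span (Set.mem_insert _ _)
    · exact Submodule.zero_mem _
  · rw [Matrix.single_apply]
    split_ifs
    · exact Submodule.subset_span (Set.mem_insert_of_mem _ hg)
    · exact Submodule.zero_mem _

end aux

/-- abstract assembly: everything about the final algebra except the existence of the data -/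
theorem assembly {B : Type} [Ring B] [Algebra F B] (J : NonUnitalSubalgebra F B) (G Y : Set B)
    (hG : G.Finite) (hY : Y.Finite) (hYJ : Y ⊆ J) (hJ : NonUnitalAlgebra.adjoin F G = J)
    (hnil : ∀ A : Matrix (Fin 3) (Fin 3) B, A ∈ triAlg J → IsNilpotent A)
    (hinf : ¬ FiniteDimensional F J)
    (hgrow : ∃ C c : ℕ, ∀ n : ℕ, Module.Finite F ↥((Submodule.span F (insert 1 G)) ^ n) ∧
      Module.finrank F ↥((Submodule.span F (insert 1 G)) ^ n) ≤ C * n ^ c + C)
    (hel : ∀ r : Matrix (Fin 3) (Fin 3) B, r ∈ triAlg J →
      ∃ u ∈ Gam G Y, (u : Matrix (Fin 3) (Fin 3) B) = 1 + r) :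
    ∃ (K : Type) (_ : Field K) (R : Type) (_ : NonUnitalRing R) (_ : Module K R)
      (_ : IsScalarTower K R R) (_ : SMulCommClass K R R),
      (∀ x : R, IsNilpotent (Unitization.inr x : Unitization K R)) ∧
      ¬ FiniteDimensional K R ∧
      ∃ S : Finset R,
        NonUnitalAlgebra.adjoin K (S : Set R) = ⊤ ∧
        (∃ C d : ℕ, ∀ n : ℕ,
          Module.finrank K
            ↥((Submodule.span K
                (insert (1 : Unitization K R)
                  ((fun s : R => (Unitization.inr s : Unitization K R)) '' (S : Set R)))) ^ n)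
            ≤ C * n ^ d + C) ∧
        ∃ T : Finset R, ∀ r : R,
          ∃ u ∈ Subgroup.closure
              {v : (Unitization K R)ˣ |
                ∃ t ∈ T, (v : Unitization K R) = 1 + (Unitization.inr t : Unitization K R)},
            (u : Unitization K R) = 1 + (Unitization.inr r : Unitization K R) := by
  classical
  have hGJ : G ⊆ J := by
    rw [← hJ]
    exact NonUnitalAlgebra.subset_adjoin F
  -- `1` is not in the algebra
  have h1 : (1 : Matrix (Fin 3) (Fin 3) B) ∉ triAlg J := by
    intro h
    have h2 := hnil 1 h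
    obtain ⟨n, hn⟩ := h2
    rw [one_pow] at hn
    have h3 : (1 : B) = 0 := by
      have := congrFun (congrFun hn 0) 0
      simpa using this
    have h4 : Subsingleton B := subsingleton_of_zero_eq_one h3.symm
    apply hinf
    infer_instance
  have hinj : Function.Injective (NonUnitalSubalgebra.unitization (triAlg J)) :=
    NonUnitalSubalgebra.unitization_injective _ h1
  set Φ : Unitization F (triAlg J) →ₐ[F] Matrix (Fin 3) (Fin 3) B :=
    NonUnitalSubalgebra.unitization (triAlg J) with hΦ
  have hΦr : ∀ r : triAlg J, Φ (Unitization.inr r) = (r : Matrix (Fin 3) (Fin 3) B) := by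
    intro r
    rw [hΦ, NonUnitalSubalgebra.unitization_apply]
    simp
  have hnil' : ∀ x : triAlg J, IsNilpotent (Unitization.inr x : Unitization F (triAlg J)) := by
    intro x
    rw [← IsNilpotent.map_iff (f := Φ) hinj, hΦr]
    exact hnil _ x.2
  refine ⟨F, inferInstance, triAlg J, inferInstance, inferInstance, inferInstance, inferInstance,
    hnil', ?_, ?_⟩
  · -- infinite dimension
    intro hfd
    apply hinf
    let g : J →ₗ[F] triAlg J :=
      { toFun := fun x => ⟨Matrix.single 0 0 (x : B), single_mem_triAlg 0 0 x.2⟩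
        map_add' := fun x y => by
          apply Subtype.ext
          change Matrix.single 0 0 ((x : B) + (y : B)) = _
          rw [Matrix.single_add]
          rfl
        map_smul' := fun c x => by
          apply Subtype.ext
          change Matrix.single 0 0 (c • (x : B)) = c • Matrix.single 0 0 (x : B)
          rw [Matrix.smul_single] }
    have hg : Function.Injective g := by
      intro x y hxy
      have h2 : Matrix.single 0 0 (x : B) = Matrix.single (0 : Fin 3) (0 : Fin 3) (y : B) :=
        congrArg Subtype.val hxy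
      have h3 := congrFun (congrFun h2 0) 0
      rw [Matrix.single_apply_same, Matrix.single_apply_same] at h3
      exact Subtype.ext h3
    exact FiniteDimensional.of_injective g hg
  · have hSfin : ((Subtype.val : triAlg J → Matrix (Fin 3) (Fin 3) B) ⁻¹' triGens G).Finite :=
      (triGens_finite hG).preimage Subtype.val_injective.injOn
    refine ⟨hSfin.toFinset, ?_, ?_, ?_⟩
    · -- generation
      rw [hSfin.coe_toFinset]
      rw [eq_top_iff]
      rintro ⟨x, hx⟩ -
      have hx' : x ∈ NonUnitalAlgebra.adjoin F (triGens G) := by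
        rw [adjoin_triGens, hJ]
        exact hx
      have key : ∀ y ∈ NonUnitalAlgebra.adjoin F (triGens G), ∃ hy : y ∈ triAlg J,
          (⟨y, hy⟩ : triAlg J) ∈ NonUnitalAlgebra.adjoin F
            ((Subtype.val : triAlg J → Matrix (Fin 3) (Fin 3) B) ⁻¹' triGens G) := by
        intro y hy
        induction hy using NonUnitalAlgebra.adjoin_induction with
        | mem z hz =>
          exact ⟨triGens_subset hGJ hz, NonUnitalAlgebra.subset_adjoin F hz⟩
        | add z w _ _ hz hw =>
          obtain ⟨hz1, hz2⟩ := hz
          obtain ⟨hw1, hw2⟩ := hw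
          exact ⟨add_mem hz1 hw1, add_mem hz2 hw2⟩
        | zero => exact ⟨zero_mem _, zero_mem _⟩
        | mul z w _ _ hz hw =>
          obtain ⟨hz1, hz2⟩ := hz
          obtain ⟨hw1, hw2⟩ := hw
          exact ⟨mul_mem hz1 hw1, mul_mem hz2 hw2⟩
        | smul c z _ hz =>
          obtain ⟨hz1, hz2⟩ := hz
          exact ⟨SMulMemClass.smul_mem c hz1, SMulMemClass.smul_mem c hz2⟩
      exact (key x hx').2
    · -- growth
      obtain ⟨C, c, hCc⟩ := hgrow
      refine ⟨9 * C, c, fun n => ?_⟩
      obtain ⟨hf, hle⟩ := hCc n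
      set V : Submodule F (Unitization F (triAlg J)) := Submodule.span F
        (insert (1 : Unitization F (triAlg J))
          ((fun s : triAlg J => (Unitization.inr s : Unitization F (triAlg J))) ''
            (hSfin.toFinset : Set (triAlg J)))) with hV
      have hVle : V.map Φ.toLinearMap ≤ matSub (Submodule.span F (insert 1 G)) := by
        rw [hV, Submodule.map_span_le]
        rintro m (rfl | ⟨s, hs, rfl⟩)
        · change Φ 1 ∈ _
          rw [map_one]
          intro i j
          by_cases h : i = j
          · subst h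
            rw [Matrix.one_apply_eq]
            exact Submodule.subset_span (Set.mem_insert _ _)
          · rw [Matrix.one_apply_ne h]
            exact Submodule.zero_mem _
        · change Φ (Unitization.inr s) ∈ _
          rw [hΦr]
          rw [hSfin.coe_toFinset] at hs
          exact triGens_matSub G hs
      have hVn : (V ^ n).map Φ.toLinearMap ≤ matSub ((Submodule.span F (insert 1 G)) ^ n) := by
        rw [Submodule.map_pow]
        exact pow_le_matSub hVle n
      have hfin2 := finite_matSub ((Submodule.span F (insert 1 G)) ^ n)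
      have e1 : Module.finrank F ↥(V ^ n) = Module.finrank F ↥((V ^ n).map Φ.toLinearMap) :=
        (LinearEquiv.finrank_eq (Submodule.equivMapOfInjective Φ.toLinearMap hinj (V ^ n)))
      have e2 := Submodule.finrank_mono hVn
      rw [finrank_matSub] at e2
      rw [e1]
      refine e2.trans ?_
      calc 9 * Module.finrank F ↥((Submodule.span F (insert 1 G)) ^ n)
          ≤ 9 * (C * n ^ c + C) := Nat.mul_le_mul_left 9 hle
        _ = 9 * C * n ^ c + 9 * C := by ring
    · -- units
      have hTfin : ((Subtype.val : triAlg J → Matrix (Fin 3) (Fin 3) B) ⁻¹'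
          elemGens G Y).Finite :=
        (elemGens_finite hG hY).preimage Subtype.val_injective.injOn
      refine ⟨hTfin.toFinset, fun r => ?_⟩
      obtain ⟨u, hu, hur⟩ := hel r r.2
      have hmap : Gam G Y ≤ (Subgroup.closure
          {v : (Unitization F (triAlg J))ˣ | ∃ t ∈ hTfin.toFinset,
            (v : Unitization F (triAlg J)) =
              1 + (Unitization.inr t : Unitization F (triAlg J))}).map
          (Units.map (Φ : Unitization F (triAlg J) →* Matrix (Fin 3) (Fin 3) B)) := by
        unfold Gam
        rw [Subgroup.closure_le]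
        rintro v ⟨t, ht, hv⟩
        have htJ : t ∈ triAlg J := elemGens_subset hGJ hYJ ht
        have hunit : IsUnit (1 + (Unitization.inr (⟨t, htJ⟩ : triAlg J) :
            Unitization F (triAlg J))) := (hnil' ⟨t, htJ⟩).isUnit_one_add
        obtain ⟨w, hw⟩ := hunit
        refine ⟨w, Subgroup.subset_closure ⟨⟨t, htJ⟩, ?_, hw⟩, ?_⟩
        · rw [hTfin.mem_toFinset]
          exact ht
        · apply Units.ext
          rw [Units.coe_map, hv, hw]
          change Φ (1 + Unitization.inr (⟨t, htJ⟩ : triAlg J)) = _
          rw [map_add, map_one, hΦr]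
      obtain ⟨w, hw, hwu⟩ := hmap hu
      refine ⟨w, hw, hinj ?_⟩
      have h2 : (Units.map (Φ : Unitization F (triAlg J) →* Matrix (Fin 3) (Fin 3) B) w :
          Matrix (Fin 3) (Fin 3) B) = Φ (w : Unitization F (triAlg J)) := rfl
      rw [map_add, map_one, hΦr, ← hur, ← hwu, h2]

end Pool.Agent.NilAdj
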