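import Pool.Agent.Lib.MP_1fb0bc_al.Defs

set_option autoImplicit false

namespace Pool.Agent.NilAdj

variable {d : ℕ → ℕ}

/-- states of the stack -/
abbrev rpSt (d : ℕ → ℕ) : Type := (k : ℕ) → Option (Fin (d k))

/-- the stack module -/
abbrev rpV (d : ℕ → ℕ) : Type := rpSt d →₀ F

/-- `x ↦ μ_k^ε (x, e_b)` -/
def rpBil (L : LevelData d) (k : ℕ) (ε : Bool) (b : Fin (d k)) :
    (Fin (d k) → F) →ₗ[F] (Fin (d (k + 1)) → F) where
  toFun x c := ∑ a, x a * L.μ k ε a b c
  map_add' x y := by
    funext c
    simp only [Pi.add_apply, add_mul, Finset.sum_add_distrib]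
  map_smul' r x := by
    funext c
    simp only [Pi.smul_apply, smul_eq_mul, RingHom.id_apply, Finset.mul_sum, mul_assoc]

/-- push `x` on the stack at level `k`, with fuel `n` -/
noncomputable def rpPush (L : LevelData d) : (n k : ℕ) → rpSt d → ((Fin (d k) → F) →ₗ[F] rpV d)
  | 0, _, _ => 0
  | n + 1, k, s =>
    match s k with
    | none => ∑ a, (LinearMap.proj a).smulRight (Finsupp.single (Function.update s k (some a)) 1)
    | some b => (rpPush L n (k + 1) (Function.update s k none)).comp
        (rpBil L k (!(s (k + 2)).isSome) b)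

theorem rpPush_zero (L : LevelData d) (k : ℕ) (s : rpSt d) : rpPush L 0 k s = 0 := rfl

theorem rpPush_none (L : LevelData d) (n k : ℕ) (s : rpSt d) (h : s k = none)
    (x : Fin (d k) → F) : rpPush L (n + 1) k s x =
      ∑ a, x a • Finsupp.single (Function.update s k (some a)) 1 := by
  unfold rpPush
  rw [h]
  simp

theorem rpPush_some (L : LevelData d) (n k : ℕ) (s : rpSt d) (b : Fin (d k)) (h : s k = some b)
    (x : Fin (d k) → F) : rpPush L (n + 1) k s x =
      rpPush L n (k + 1) (Function.update s k none) (rpBil L k (!(s (k + 2)).isSome) b x) := by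
  rw [rpPush]
  rw [h]
  rfl

theorem rpPush_supp (L : LevelData d) : ∀ (n k : ℕ) (s : rpSt d) (x : Fin (d k) → F),
    rpPush L n k s x ∈ Finsupp.supported F F
      {s' : rpSt d | (∀ m < k, s' m = s m) ∧ (s' k).isSome = !(s k).isSome} := by
  intro n
  induction n with
  | zero =>
    intro k s x
    rw [rpPush_zero]
    exact Submodule.zero_mem _
  | succ n ih =>
    intro k s x
    rcases hs : s k with _ | b
    · rw [rpPush_none L n k s hs]
      refine Submodule.sum_mem _ fun a _ => Submodule.smul_mem _ _ ?_
      refine Finsupp.single_mem_supported F _ ⟨fun m hm => ?_, ?_⟩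
      · rw [Function.update_of_ne hm.ne]
      · simp
    · rw [rpPush_some L n k s b hs]
      refine Finsupp.supported_mono ?_ (ih (k + 1) (Function.update s k none) _)
      rintro s' ⟨h1, -⟩
      refine ⟨fun m hm => ?_, ?_⟩
      · rw [h1 m (by omega), Function.update_of_ne hm.ne]
      · rw [h1 k (by omega)]
        simp

theorem rpPush_supp2 (L : LevelData d) (n k : ℕ) (s : rpSt d) (x : Fin (d k) → F)
    (hs : (s k).isSome = true) :
    rpPush L n k s x ∈ Finsupp.supported F F
      {s' : rpSt d | (s' (k + 1)).isSome = !(s (k + 1)).isSome} := by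
  cases n with
  | zero =>
    rw [rpPush_zero]
    exact Submodule.zero_mem _
  | succ n =>
    obtain ⟨b, hb⟩ := Option.isSome_iff_exists.1 hs
    rw [rpPush_some L n k s b hb]
    refine Finsupp.supported_mono ?_ (rpPush_supp L n (k + 1) (Function.update s k none) _)
    rintro s' ⟨-, h2⟩
    rw [Function.update_of_ne (by omega)] at h2
    exact h2

/-- the condition for the letter to act -/
def rpCond (k : ℕ) (p h : Bool) (s : rpSt d) : Prop :=
  (∀ m < k, s m = none) ∧ h = !(s k).isSome ∧ p = !(s (k + 1)).isSome

open Classical in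
/-- the operators -/
noncomputable def rpOp (L : LevelData d) (K k : ℕ) (p h : Bool) (a : Fin (d k)) :
    Module.End F (rpV d) :=
  Finsupp.linearCombination F fun s =>
    if rpCond k p h s then rpPush L (K - k) k s (Pi.single a 1) else 0

theorem rpOp_pos (L : LevelData d) (K k : ℕ) (p h : Bool) (a : Fin (d k)) (s : rpSt d)
    (hs : rpCond k p h s) (c : F) : rpOp L K k p h a (Finsupp.single s c) =
      c • rpPush L (K - k) k s (Pi.single a 1) := by
  rw [rpOp, Finsupp.linearCombination_single, if_pos hs]

theorem rpOp_neg (L : LevelData d) (K k : ℕ) (p h : Bool) (a : Fin (d k)) (s : rpSt d)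
    (hs : ¬ rpCond k p h s) (c : F) : rpOp L K k p h a (Finsupp.single s c) = 0 := by
  rw [rpOp, Finsupp.linearCombination_single, if_neg hs, smul_zero]

theorem rpOp_supp (L : LevelData d) (K k : ℕ) (p h : Bool) (a : Fin (d k)) {S : Set (rpSt d)}
    (hS : ∀ s ∈ S, ¬ rpCond k p h s) {v : rpV d} (hv : v ∈ Finsupp.supported F F S) :
    rpOp L K k p h a v = 0 := by
  rw [Finsupp.mem_supported] at hv
  rw [rpOp, Finsupp.linearCombination_apply]
  refine Finset.sum_eq_zero fun s hs => ?_
  simp only
  rw [if_neg (hS s (hv hs)), smul_zero]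

theorem rpOp_mul_zero (L : LevelData d) (K k : ℕ) (p h p' h' : Bool) (a b : Fin (d k))
    (H : ∀ s : rpSt d, rpCond k p' h' s → ∃ S : Set (rpSt d), (∀ s' ∈ S, ¬ rpCond k p h s') ∧
      rpPush L (K - k) k s (Pi.single b 1) ∈ Finsupp.supported F F S) :
    rpOp L K k p h a * rpOp L K k p' h' b = 0 := by
  refine Finsupp.lhom_ext fun s c => ?_
  rw [Module.End.mul_apply, LinearMap.zero_apply]
  by_cases hs : rpCond k p' h' s
  · rw [rpOp_pos L K k p' h' b s hs, map_smul]
    obtain ⟨S, hS1, hS2⟩ := H s hs
    rw [rpOp_supp L K k p h a hS1 hS2, smul_zero]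
  · rw [rpOp_neg L K k p' h' b s hs, map_zero]

theorem rpOp_mul (L : LevelData d) (K k : ℕ) (p : Bool) (a b : Fin (d k)) :
    rpOp L K k p false a * rpOp L K k p true b =
      ∑ ε, ∑ c, L.μ k ε a b c • rpOp L K (k + 1) ε p c := by
  refine Finsupp.lhom_ext fun s r => ?_
  rw [Module.End.mul_apply]
  simp only [LinearMap.sum_apply, LinearMap.smul_apply]
  by_cases hs : (∀ m < k + 1, s m = none) ∧ p = !(s (k + 1)).isSome
  · obtain ⟨hs1, hs2⟩ := hs
    have hk : s k = none := hs1 k (by omega)
    have hc : rpCond k p true s := ⟨fun m hm => hs1 m (by omega), by rw [hk]; rfl, hs2⟩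
    -- the right-hand side
    have hR : ∑ ε, ∑ c, L.μ k ε a b c • (rpOp L K (k + 1) ε p c) (Finsupp.single s r) =
        r • rpPush L (K - (k + 1)) (k + 1) s
          (fun c => L.μ k (!(s (k + 2)).isSome) a b c) := by
      have h1 : ∀ ε, ε ≠ !(s (k + 2)).isSome → ∑ c, L.μ k ε a b c •
          (rpOp L K (k + 1) ε p c) (Finsupp.single s r) = 0 := by
        intro ε hε
        refine Finset.sum_eq_zero fun c _ => ?_
        rw [rpOp_neg L K (k + 1) ε p c s (fun h => hε h.2.2), smul_zero]
      rw [Finset.sum_eq_single (!(s (k + 2)).isSome) (fun ε _ hε => h1 ε hε)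
        (fun h => absurd (Finset.mem_univ _) h)]
      have h2 : ∀ c, (rpOp L K (k + 1) (!(s (k + 2)).isSome) p c) (Finsupp.single s r) =
          r • rpPush L (K - (k + 1)) (k + 1) s (Pi.single c 1) := fun c =>
        rpOp_pos L K (k + 1) _ p c s ⟨hs1, hs2, rfl⟩ r
      simp_rw [h2]
      have h3 : (fun c => L.μ k (!(s (k + 2)).isSome) a b c) =
          ∑ c, L.μ k (!(s (k + 2)).isSome) a b c • (Pi.single c 1 : Fin (d (k + 1)) → F) := by
        funext c'
        simp [Finset.sum_apply, Pi.single_apply]
      rw [h3, map_sum, Finset.smul_sum]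
      refine Finset.sum_congr rfl fun c _ => ?_
      rw [map_smul, smul_comm]
    rw [hR, rpOp_pos L K k p true b s hc, map_smul]
    congr 1
    rcases Nat.lt_or_ge k K with hK | hK
    · obtain ⟨n, hn⟩ : ∃ n, K - k = n + 1 := ⟨K - k - 1, by omega⟩
      have hn' : K - (k + 1) = n := by omega
      rw [hn', hn, rpPush_none L n k s hk]
      have h4 : ∑ a', (Pi.single b 1 : Fin (d k) → F) a' •
          (Finsupp.single (Function.update s k (some a')) (1 : F) : rpV d) =
          Finsupp.single (Function.update s k (some b)) 1 := by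
        rw [Finset.sum_eq_single b]
        · simp
        · intro a' _ ha'
          rw [Pi.single_eq_of_ne ha', zero_smul]
        · intro h
          exact absurd (Finset.mem_univ _) h
      rw [h4]
      have hc2 : rpCond k p false (Function.update s k (some b)) := by
        refine ⟨fun m hm => ?_, ?_, ?_⟩
        · rw [Function.update_of_ne hm.ne]
          exact hs1 m (by omega)
        · simp
        · rw [Function.update_of_ne (by omega)]
          exact hs2
      rw [rpOp_pos L K k p false a _ hc2, one_smul, hn,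
        rpPush_some L n k _ b (by simp)]
      have h5 : Function.update (Function.update s k (some b)) k none = s := by
        rw [Function.update_idem]
        conv_rhs => rw [← Function.update_eq_self k s]
        rw [hk]
      have h6 : (Function.update s k (some b) : rpSt d) (k + 2) = s (k + 2) :=
        Function.update_of_ne (by omega) _ _
      rw [h5, h6]
      congr 1
      funext c
      simp [rpBil, Pi.single_apply]
    · have e1 : K - k = 0 := by omega
      have e2 : K - (k + 1) = 0 := by omega
      rw [e1, e2, rpPush_zero, rpPush_zero]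
      simp
  · have hR : ∑ ε, ∑ c, L.μ k ε a b c • (rpOp L K (k + 1) ε p c) (Finsupp.single s r) = 0 := by
      refine Finset.sum_eq_zero fun ε _ => Finset.sum_eq_zero fun c _ => ?_
      rw [rpOp_neg L K (k + 1) ε p c s (fun h => hs ⟨h.1, h.2.1⟩), smul_zero]
    rw [hR, rpOp_neg L K k p true b s, map_zero]
    rintro ⟨h1, h2, h3⟩
    refine hs ⟨fun m hm => ?_, h3⟩
    rcases Nat.lt_succ_iff_lt_or_eq.1 hm with h | h
    · exact h1 m h
    · subst h
      rcases hsm : s m with _ | b'
      · rfl
      · rw [hsm] at h2
        simp at h2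

/-- the realisation -/
noncomputable def rpHier (L : LevelData d) : Hier L (ℕ → Module.End F (rpV d)) where
  T k p h a := fun K => rpOp L K k p h a
  ff k p p' a b := by
    funext K
    refine rpOp_mul_zero L K k p false p' false a b fun s hs =>
      ⟨_, ?_, rpPush_supp L (K - k) k s _⟩
    rintro s' ⟨-, h2⟩ hc
    have h3 := hc.2.1
    have h4 := hs.2.1
    rw [h2, ← h4] at h3
    exact absurd h3 (by decide)
  tt k p p' a b := by
    funext K
    refine rpOp_mul_zero L K k p true p' true a b fun s hs =>
      ⟨_, ?_, rpPush_supp L (K - k) k s _⟩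
    rintro s' ⟨-, h2⟩ hc
    have h3 := hc.2.1
    have h4 := hs.2.1
    rw [h2, ← h4] at h3
    exact absurd h3 (by decide)
  ft k p p' a b hpp := by
    funext K
    refine rpOp_mul_zero L K k p false p' true a b fun s hs => ?_
    have hk : s k = none := by
      rcases hsk : s k with _ | b'
      · rfl
      · have := hs.2.1
        rw [hsk] at this
        simp at this
    refine ⟨{s' | s' (k + 1) = s (k + 1)}, ?_, ?_⟩
    · intro s' hs' hc
      have hs'' : s' (k + 1) = s (k + 1) := hs'
      have h3 := hc.2.2
      rw [hs'', ← hs.2.2] at h3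
      exact hpp h3
    · rcases hn : K - k with _ | n
      · rw [rpPush_zero]
        exact Submodule.zero_mem _
      · rw [rpPush_none L n k s hk]
        refine Submodule.sum_mem _ fun a _ => Submodule.smul_mem _ _ ?_
        refine Finsupp.single_mem_supported F _ ?_
        show Function.update s k (some a) (k + 1) = s (k + 1)
        rw [Function.update_of_ne (by omega)]
  tf k p a b := by
    funext K
    refine rpOp_mul_zero L K k p true p false a b fun s hs =>
      ⟨_, ?_, rpPush_supp2 L (K - k) k s _ ?_⟩
    · intro s' hs' hc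
      have h2 : (s' (k + 1)).isSome = !(s (k + 1)).isSome := hs'
      have h3 := hc.2.2
      have h4 := hs.2.2
      rw [h2, ← h4] at h3
      cases p <;> simp at h3
    · have := hs.2.1
      cases hsk : (s k).isSome
      · rw [hsk] at this
        simp at this
      · rfl
  mul k p a b := by
    funext K
    have := rpOp_mul L K k p a b
    simp only [Pi.mul_apply, Finset.sum_apply, Pi.smul_apply]
    exact this

theorem rp_linInd (L : LevelData d) (hd : ∀ k, 0 < d k) :
    LinearIndependent F (fun k : ℕ => (rpHier L).T k true true ⟨0, hd k⟩) := by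
  refine (linearIndependent_iff' (R := F) (M := ℕ → Module.End F (rpV d))).2 ?_
  intro s g hg i hi
  -- the component `K`, applied to the empty state
  obtain ⟨K, hK⟩ : ∃ K : ℕ, ∀ k ∈ s, k < K := ⟨s.sup id + 1, fun k hk =>
    Nat.lt_succ_of_le (Finset.le_sup (f := id) hk)⟩
  set e : rpSt d := fun _ => none with he
  have h1 := congrFun hg K
  have h2 : (∑ k ∈ s, g k • (rpHier L).T k true true ⟨0, hd k⟩) K (Finsupp.single e 1) = 0 := by
    rw [h1]
    rfl
  have h3 : ∀ k ∈ s, ((rpHier L).T k true true ⟨0, hd k⟩) K (Finsupp.single e 1) =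
      Finsupp.single (Function.update e k (some ⟨0, hd k⟩)) 1 := by
    intro k hk
    show rpOp L K k true true ⟨0, hd k⟩ (Finsupp.single e 1) = _
    obtain ⟨n, hn⟩ : ∃ n, K - k = n + 1 := ⟨K - k - 1, by have := hK k hk; omega⟩
    rw [rpOp_pos L K k true true _ e ⟨fun _ _ => rfl, rfl, rfl⟩, one_smul, hn,
      rpPush_none L n k e rfl, Finset.sum_eq_single ⟨0, hd k⟩]
    · simp
    · intro a' _ ha'
      rw [Pi.single_eq_of_ne ha', zero_smul]
    · intro h
      exact absurd (Finset.mem_univ _) h
  simp only [Finset.sum_apply, Pi.smul_apply, LinearMap.sum_apply, LinearMap.smul_apply] at h2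
  rw [Finset.sum_congr rfl fun k hk => by rw [h3 k hk]] at h2
  have h4 := DFunLike.congr_fun h2 (Function.update e i (some ⟨0, hd i⟩))
  rw [Finsupp.finsetSum_apply, Finset.sum_eq_single i] at h4
  · simpa using h4
  · intro k _ hki
    rw [Finsupp.smul_apply, Finsupp.single_eq_of_ne, smul_zero]
    intro h
    have := congrFun h i
    rw [Function.update_self, Function.update_of_ne (Ne.symm hki)] at this
    simp [he] at this
  · intro h
    exact absurd hi h

/-- the stack module -/
theorem exists_rep {d : ℕ → ℕ} (L : LevelData d) (hd : ∀ k, 0 < d k) :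
    ∃ (B : Type) (_ : Ring B) (_ : Algebra F B) (H : Hier L B),
      LinearIndependent F (fun k : ℕ => H.T k true true ⟨0, hd k⟩) :=
  ⟨ℕ → Module.End F (rpV d), inferInstance, inferInstance, rpHier L, rp_linInd L hd⟩

end Pool.Agent.NilAdj
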