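import Pool.Agent.Lib.MP_1fb0bc_al.Defs

set_option autoImplicit false

namespace Pool.Agent.NilAdj

variable {B : Type} [Ring B] [Algebra F B]

private def TriFJ (J : NonUnitalSubalgebra F B) (x : B) : Prop :=
  ∃ c : F, ∃ y ∈ J, x = algebraMap F B c + y

private lemma triFJ_of_mem {J : NonUnitalSubalgebra F B} {x : B} (hx : x ∈ J) : TriFJ J x :=
  ⟨0, x, hx, by simp⟩

private lemma triFJ_zero (J : NonUnitalSubalgebra F B) : TriFJ J 0 := triFJ_of_mem (zero_mem J)

private lemma triFJ_add {J : NonUnitalSubalgebra F B} {x y : B} (hx : TriFJ J x)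
    (hy : TriFJ J y) : TriFJ J (x + y) := by
  obtain ⟨c, u, hu, rfl⟩ := hx
  obtain ⟨d, v, hv, rfl⟩ := hy
  exact ⟨c + d, u + v, add_mem hu hv, by rw [map_add]; abel⟩

private lemma triFJ_sum {J : NonUnitalSubalgebra F B} {ι : Type} (s : Finset ι) (f : ι → B)
    (h : ∀ i ∈ s, TriFJ J (f i)) : TriFJ J (∑ i ∈ s, f i) := by
  classical
  induction s using Finset.induction_on with
  | empty => simpa using triFJ_zero J
  | insert a s ha ih =>
    rw [Finset.sum_insert ha]
    exact triFJ_add (h a (Finset.mem_insert_self a s))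
      (ih fun i hi => h i (Finset.mem_insert_of_mem hi))

private lemma tri_mul_left {J : NonUnitalSubalgebra F B} {x y : B} (hx : TriFJ J x)
    (hy : y ∈ J) : x * y ∈ J := by
  obtain ⟨c, u, hu, rfl⟩ := hx
  rw [add_mul, ← Algebra.smul_def]
  exact add_mem (SMulMemClass.smul_mem c hy) (mul_mem hu hy)

private lemma tri_mul_right {J : NonUnitalSubalgebra F B} {x y : B} (hx : x ∈ J)
    (hy : TriFJ J y) : x * y ∈ J := by
  obtain ⟨c, u, hu, rfl⟩ := hy
  rw [mul_add, ← Algebra.commutes, ← Algebra.smul_def]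
  exact add_mem (SMulMemClass.smul_mem c hx) (mul_mem hx hu)

private lemma triFJ_mul {J : NonUnitalSubalgebra F B} {x y : B} (hx : TriFJ J x)
    (hy : TriFJ J y) : TriFJ J (x * y) := by
  obtain ⟨d, v, hv, rfl⟩ := hy
  rw [mul_add]
  refine triFJ_add ?_ (triFJ_of_mem (tri_mul_left hx hv))
  obtain ⟨c, u, hu, rfl⟩ := hx
  refine ⟨c * d, d • u, SMulMemClass.smul_mem d hu, ?_⟩
  rw [add_mul, map_mul, Algebra.smul_def, Algebra.commutes d u]

private lemma tri_entry {J : NonUnitalSubalgebra F B} {A : Matrix (Fin 3) (Fin 3) B}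
    (hA : ∀ i j, (j ≤ i → A i j ∈ J) ∧
      (i < j → ∃ c : F, ∃ x ∈ J, A i j = algebraMap F B c + x)) (i j : Fin 3) :
    TriFJ J (A i j) := by
  rcases le_or_gt j i with h | h
  · exact triFJ_of_mem ((hA i j).1 h)
  · exact (hA i j).2 h

/-- `3 × 3` matrices over `F + J` which are strictly upper triangular modulo `J` -/
def triAlg (J : NonUnitalSubalgebra F B) : NonUnitalSubalgebra F (Matrix (Fin 3) (Fin 3) B) where
  carrier := {A | ∀ i j, (j ≤ i → A i j ∈ J) ∧
    (i < j → ∃ c : F, ∃ x ∈ J, A i j = algebraMap F B c + x)}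
  zero_mem' := by
    intro i j
    exact ⟨fun _ => zero_mem J, fun _ => triFJ_zero J⟩
  add_mem' := by
    intro A A' hA hA' i j
    exact ⟨fun h => add_mem ((hA i j).1 h) ((hA' i j).1 h),
      fun h => triFJ_add ((hA i j).2 h) ((hA' i j).2 h)⟩
  mul_mem' := by
    intro A A' hA hA' i j
    constructor
    · intro h
      rw [Matrix.mul_apply]
      refine sum_mem fun k _ => ?_
      rcases le_or_gt k i with h' | h'
      · exact tri_mul_right ((hA i k).1 h') (tri_entry hA' k j)
      · exact tri_mul_left (tri_entry hA i k) ((hA' k j).1 (h.trans h'.le))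
    · intro _
      rw [Matrix.mul_apply]
      exact triFJ_sum _ _ fun k _ => triFJ_mul (tri_entry hA i k) (tri_entry hA' k j)
  smul_mem' := by
    intro c A hA i j
    refine ⟨fun h => SMulMemClass.smul_mem c ((hA i j).1 h), fun h => ?_⟩
    obtain ⟨d, x, hx, he⟩ := (hA i j).2 h
    refine ⟨c * d, c • x, SMulMemClass.smul_mem c hx, ?_⟩
    rw [Matrix.smul_apply, he, smul_add, map_mul, Algebra.smul_def, Algebra.smul_def]

/-- finite generating set of `triAlg` -/
def triGens (G : Set B) : Set (Matrix (Fin 3) (Fin 3) B) :=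
  {A | ∃ i j, i < j ∧ A = Matrix.single i j 1} ∪ {A | ∃ i j, ∃ g ∈ G, A = Matrix.single i j g}

theorem triGens_finite {G : Set B} (hG : G.Finite) : (triGens G).Finite := by
  refine Set.Finite.union ?_ ?_
  · refine (Set.finite_range fun x : Fin 3 × Fin 3 =>
      (Matrix.single x.1 x.2 1 : Matrix (Fin 3) (Fin 3) B)).subset ?_
    rintro A ⟨i, j, -, rfl⟩
    exact ⟨(i, j), rfl⟩
  · have h : ((Set.univ : Set (Fin 3 × Fin 3)) ×ˢ G).Finite := Set.finite_univ.prod hG
    refine (h.image fun x => (Matrix.single x.1.1 x.1.2 x.2 : Matrix (Fin 3) (Fin 3) B)).subset ?_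
    rintro A ⟨i, j, g, hg, rfl⟩
    exact ⟨((i, j), g), ⟨Set.mem_univ _, hg⟩, rfl⟩

private lemma tri_single_mem (G : Set B) {x : B} (hx : x ∈ NonUnitalAlgebra.adjoin F G) :
    ∀ i j : Fin 3, Matrix.single i j x ∈ NonUnitalAlgebra.adjoin F (triGens G) := by
  induction hx using NonUnitalAlgebra.adjoin_induction with
  | mem g hg =>
    intro i j
    exact NonUnitalAlgebra.subset_adjoin F (Or.inr ⟨i, j, g, hg, rfl⟩)
  | zero =>
    intro i j
    rw [Matrix.single_zero]
    exact zero_mem _
  | add x y _ _ hx hy =>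
    intro i j
    rw [Matrix.single_add]
    exact add_mem (hx i j) (hy i j)
  | mul x y _ _ hx hy =>
    intro i j
    have : Matrix.single i j (x * y) = Matrix.single i i x * Matrix.single i j y := by
      rw [Matrix.single_mul_single_same]
    rw [this]
    exact mul_mem (hx i i) (hy i j)
  | smul c x _ hx =>
    intro i j
    have : Matrix.single i j (c • x) = c • Matrix.single i j x := by
      rw [Matrix.smul_single]
    rw [this]
    exact SMulMemClass.smul_mem c (hx i j)

theorem adjoin_triGens (G : Set B) :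
    NonUnitalAlgebra.adjoin F (triGens G) = triAlg (NonUnitalAlgebra.adjoin F G) := by
  apply le_antisymm
  · refine NonUnitalAlgebra.adjoin_le ?_
    rintro A (⟨i, j, hij, rfl⟩ | ⟨i, j, g, hg, rfl⟩)
    · intro a b
      constructor
      · intro hba
        have : Matrix.single i j (1 : B) a b = 0 := by
          apply Matrix.single_apply_of_ne
          rintro ⟨rfl, rfl⟩
          exact absurd hij (not_lt.2 hba)
        rw [this]
        exact zero_mem _
      · intro hab
        by_cases h : i = a ∧ j = b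
        · obtain ⟨rfl, rfl⟩ := h
          exact ⟨1, 0, zero_mem _, by simp⟩
        · rw [Matrix.single_apply_of_ne _ _ _ _ _ h]
          exact triFJ_zero _
    · have hg' : g ∈ NonUnitalAlgebra.adjoin F G := NonUnitalAlgebra.subset_adjoin F hg
      have hall : ∀ a b, Matrix.single i j g a b ∈ NonUnitalAlgebra.adjoin F G := by
        intro a b
        by_cases h : i = a ∧ j = b
        · obtain ⟨rfl, rfl⟩ := h
          rw [Matrix.single_apply_same]
          exact hg'
        · rw [Matrix.single_apply_of_ne _ _ _ _ _ h]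
          exact zero_mem _
      intro a b
      exact ⟨fun _ => hall a b, fun _ => triFJ_of_mem (hall a b)⟩
  · intro A hA
    rw [Matrix.matrix_eq_sum_single A]
    refine sum_mem fun i _ => sum_mem fun j _ => ?_
    rcases le_or_gt j i with h | h
    · exact tri_single_mem G ((hA i j).1 h) i j
    · obtain ⟨c, x, hx, he⟩ := (hA i j).2 h
      rw [he, Matrix.single_add]
      refine add_mem ?_ (tri_single_mem G hx i j)
      have : Matrix.single i j (algebraMap F B c) = c • Matrix.single i j (1 : B) := by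
        rw [Matrix.smul_single, Algebra.smul_def, mul_one]
      rw [this]
      exact SMulMemClass.smul_mem c
        (NonUnitalAlgebra.subset_adjoin F (Or.inl ⟨i, j, h, rfl⟩))

theorem triAlg_nil (J : NonUnitalSubalgebra F B)
    (hnil : ∀ A : Matrix (Fin 3) (Fin 3) B, A ∈ matSet (J : Set B) (Fin 3) → IsNilpotent A)
    (A : Matrix (Fin 3) (Fin 3) B) (hA : A ∈ triAlg J) : IsNilpotent A := by
  have hA' : ∀ i j, (j ≤ i → A i j ∈ J) ∧
      (i < j → ∃ c : F, ∃ x ∈ J, A i j = algebraMap F B c + x) := hA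
  have h3 : A * A * A ∈ matSet (J : Set B) (Fin 3) := by
    intro i j
    show (A * A * A) i j ∈ J
    rw [Matrix.mul_apply]
    refine sum_mem fun l _ => ?_
    rw [Matrix.mul_apply, Finset.sum_mul]
    refine sum_mem fun k _ => ?_
    rcases le_or_gt k i with h1 | h1
    · exact tri_mul_right (tri_mul_right ((hA' i k).1 h1) (tri_entry hA' k l)) (tri_entry hA' l j)
    rcases le_or_gt l k with h2 | h2
    · exact tri_mul_right (tri_mul_left (tri_entry hA' i k) ((hA' k l).1 h2)) (tri_entry hA' l j)
    rcases le_or_gt j l with h3 | h3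
    · exact tri_mul_left (triFJ_mul (tri_entry hA' i k) (tri_entry hA' k l)) ((hA' l j).1 h3)
    · exfalso
      have := i.isLt; have := j.isLt
      rw [Fin.lt_def] at h1 h2 h3
      omega
  obtain ⟨n, hn⟩ := hnil _ h3
  refine ⟨3 * n, ?_⟩
  rw [pow_mul, show A ^ 3 = A * A * A by rw [pow_succ, pow_two]]
  exact hn

end Pool.Agent.NilAdj
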